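import Mathlib

/-!
Recurrence coefficients for weights `exp(-2Q)` under purely asymptotic hypotheses on `Q`:
for every exponent `α > 0` there is a bounded measurable perturbation `Q` of `|x|^α` for which
`a_n / n^{1/α}` has no positive limit.

Idea. Let `p_n` be the orthonormal polynomials of the even weight `w₀ = exp(-2|x|^α)` and suppose
`a_n / n^{1/α}` has a positive limit. The densities `p_n² w₀` and `p_{n-1}² w₀` stay at a positive
`L¹` distance from each other outside every bounded set (a quantitative consequence of the three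
term recurrence), so by a gliding hump there is a measurable `g`, `|g| ≤ 1`, with
`|∫ (p_{n+1}² - p_n²) w₀ g| ≥ 7/200` infinitely often. The extremal property of monic orthogonal
polynomials shows that the weight `w₀ (1 + g/100)` then has irregular recurrence coefficients.
-/

open Polynomial MeasureTheory Filter Topology

namespace Pool.Agent.Results.MP_e8d659_an.NoLimit

/-! Definitions used in the statement. -/

/-- The weight `w = exp(-2Q)`. -/
noncomputable def weight (Q : ℝ → ℝ) (x : ℝ) : ℝ := Real.exp (-2 * Q x)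

/-- `Q` is measurable and all moments of `exp(-2Q)` are finite. -/
def FiniteMoments (Q : ℝ → ℝ) : Prop :=
  Measurable Q ∧ ∀ k : ℕ, Integrable (fun x => x ^ k * weight Q x)

/-- Slowly varying functions. -/
def SlowlyVarying (L : ℝ → ℝ) : Prop :=
  Measurable L ∧ (∀ x, 0 < x → 0 < L x) ∧
    ∀ t, 0 < t → Tendsto (fun x => L (t * x) / L x) atTop (𝓝 1)

/-- `Ls` is a de Bruijn conjugate of `L`. -/
def DeBruijnConjugate (L Ls : ℝ → ℝ) : Prop :=
  SlowlyVarying Ls ∧ Tendsto (fun x => Ls x * L (x * Ls x)) atTop (𝓝 1)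

/-- Hypothesis (H). -/
structure HypH (Q : ℝ → ℝ) (α A B : ℝ) (L : ℝ → ℝ) : Prop where
  α_pos : 0 < α
  A_pos : 0 < A
  B_pos : 0 < B
  AB_le : A / B ≤ 1
  slow : SlowlyVarying L
  right : Tendsto (fun x => Q x / (A * x ^ α * L x ^ α)) atTop (𝓝 1)
  left : Tendsto (fun x => Q (-x) / (B * x ^ α * L x ^ α)) atTop (𝓝 1)

/-- `c_n = n^{1/α} L*(n^{1/α})`. -/
noncomputable def cseq (α : ℝ) (Ls : ℝ → ℝ) (n : ℕ) : ℝ :=
  (n : ℝ) ^ (1 / α) * Ls ((n : ℝ) ^ (1 / α))

/-- The Gauss function `₂F₁(1/2, α; α + 1/2; z)` for real `z < 1`, by Euler's integral. -/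
noncomputable def F21 (α z : ℝ) : ℝ :=
  Real.Gamma (α + 1 / 2) / (Real.Gamma α * Real.Gamma (1 / 2)) *
    ∫ t in (0 : ℝ)..1, t ^ (α - 1) * (1 - t) ^ (-(1 / 2) : ℝ) * (1 - z * t) ^ (-(1 / 2) : ℝ)

/-- The defining property of the constant `c`. -/
def IsC (α A B c : ℝ) : Prop :=
  ((1 / 2 < α ∨ (α ≤ 1 / 2 ∧ Real.cos (Real.pi * α) < A / B)) →
    0 < c ∧ c ≤ 1 ∧ c ^ α * F21 α (-c) / F21 α (-1 / c) = A / B) ∧
  ((α ≤ 1 / 2 ∧ A / B ≤ Real.cos (Real.pi * α)) → c = 1)

/-- The constant `K`. -/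
noncomputable def Kconst (α A c : ℝ) : ℝ :=
  √Real.pi / A * (Real.Gamma α / Real.Gamma (α + 1 / 2)) * F21 α (-c)

/-- The predicted limit of `a_n / c_n`. -/
noncomputable def limA (α A c : ℝ) : ℝ := (1 + c) / 4 * Kconst α A c ^ (1 / α)

/-- The predicted limit of `b_n / c_n`. -/
noncomputable def limB (α A c : ℝ) : ℝ := (1 - c) / 2 * Kconst α A c ^ (1 / α)

/-- `p` is the sequence of orthonormal polynomials for the weight `exp(-2Q)`. -/
def IsOrthonormal (Q : ℝ → ℝ) (p : ℕ → ℝ[X]) : Prop :=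
  (∀ n, (p n).natDegree = n ∧ 0 < (p n).leadingCoeff) ∧
    ∀ m n, ∫ x, (p m).eval x * (p n).eval x * weight Q x = if m = n then 1 else 0

/-- `a`, `b` are the Jacobi recurrence coefficients of `p`. -/
def IsRecurrence (p : ℕ → ℝ[X]) (a b : ℕ → ℝ) : Prop :=
  (∀ n, 0 < a (n + 1)) ∧ X * p 0 = C (a 1) * p 1 + C (b 0) * p 0 ∧
    ∀ n, X * p (n + 1) = C (a (n + 2)) * p (n + 2) + C (b (n + 1)) * p (n + 1) +
      C (a (n + 1)) * p n

section Part1

/-- Positive measurable weights on the line with finite moments. -/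
structure IsWeight (w : ℝ → ℝ) : Prop where
  meas : Measurable w
  pos : ∀ x, 0 < w x
  mom : ∀ k : ℕ, Integrable (fun x => x ^ k * w x)

theorem IsWeight.integrable {w : ℝ → ℝ} (hw : IsWeight w) (p : ℝ[X]) :
    Integrable (fun x => p.eval x * w x) := by
  have : (fun x => p.eval x * w x) =
      fun x => ∑ i ∈ Finset.range (p.natDegree + 1), p.coeff i * (x ^ i * w x) := by
    funext x
    rw [eval_eq_sum_range, Finset.sum_mul]
    exact Finset.sum_congr rfl fun i _ => by ring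
  rw [this]
  exact integrable_finsetSum _ fun i _ => (hw.mom i).const_mul _

theorem IsWeight.integrable₂ {w : ℝ → ℝ} (hw : IsWeight w) (p q : ℝ[X]) :
    Integrable (fun x => p.eval x * q.eval x * w x) := by
  have := hw.integrable (p * q)
  simpa only [eval_mul] using this

/-- The inner product of polynomials for the weight `w`. -/
noncomputable def B (w : ℝ → ℝ) (p q : ℝ[X]) : ℝ := ∫ x, p.eval x * q.eval x * w x

theorem B_comm (w : ℝ → ℝ) (p q : ℝ[X]) : B w p q = B w q p := by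
  unfold B
  congr 1
  funext x
  ring

theorem B_add_left {w : ℝ → ℝ} (hw : IsWeight w) (p q r : ℝ[X]) :
    B w (p + q) r = B w p r + B w q r := by
  unfold B
  rw [← integral_add (hw.integrable₂ p r) (hw.integrable₂ q r)]
  congr 1
  funext x
  rw [eval_add]; ring

theorem B_sub_left {w : ℝ → ℝ} (hw : IsWeight w) (p q r : ℝ[X]) :
    B w (p - q) r = B w p r - B w q r := by
  unfold B
  rw [← integral_sub (hw.integrable₂ p r) (hw.integrable₂ q r)]
  congr 1
  funext x
  rw [eval_sub]; ring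

theorem B_C_mul_left (w : ℝ → ℝ) (c : ℝ) (p r : ℝ[X]) :
    B w (C c * p) r = c * B w p r := by
  unfold B
  rw [← integral_const_mul]
  congr 1
  funext x
  rw [eval_mul, eval_C]; ring

theorem B_X_mul (w : ℝ → ℝ) (p q : ℝ[X]) : B w (X * p) q = B w p (X * q) := by
  unfold B
  congr 1
  funext x
  simp only [eval_mul, eval_X]; ring

theorem B_add_right {w : ℝ → ℝ} (hw : IsWeight w) (p q r : ℝ[X]) :
    B w r (p + q) = B w r p + B w r q := by
  rw [B_comm, B_add_left hw, B_comm w p, B_comm w q]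

theorem B_sub_right {w : ℝ → ℝ} (hw : IsWeight w) (p q r : ℝ[X]) :
    B w r (p - q) = B w r p - B w r q := by
  rw [B_comm, B_sub_left hw, B_comm w p, B_comm w q]

theorem B_C_mul_right (w : ℝ → ℝ) (c : ℝ) (p r : ℝ[X]) :
    B w r (C c * p) = c * B w r p := by
  rw [B_comm, B_C_mul_left, B_comm]

theorem B_pos {w : ℝ → ℝ} (hw : IsWeight w) {p : ℝ[X]} (hp : p ≠ 0) : 0 < B w p p := by
  unfold B
  have hnn : 0 ≤ fun x => p.eval x * p.eval x * w x := fun x =>
    mul_nonneg (mul_self_nonneg _) (hw.pos x).le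
  rw [integral_pos_iff_support_of_nonneg hnn (hw.integrable₂ p p)]
  have hsub : (p.roots.toFinset : Set ℝ)ᶜ ⊆ Function.support fun x => p.eval x * p.eval x * w x := by
    intro x hx
    rw [Function.mem_support]
    have hx' : p.eval x ≠ 0 := by
      intro h
      apply hx
      simp [hp, h]
    exact mul_ne_zero (mul_self_ne_zero.2 hx') (hw.pos x).ne'
  refine lt_of_lt_of_le ?_ (measure_mono hsub)
  have hfin : volume (p.roots.toFinset : Set ℝ) = 0 := (Finset.finite_toSet _).measure_zero _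
  rw [measure_compl (Finset.finite_toSet _).measurableSet (by rw [hfin]; exact ENNReal.zero_ne_top),
    hfin]
  simp

/-- Monic orthogonal polynomials (Stieltjes procedure). -/
noncomputable def op (w : ℝ → ℝ) : ℕ → ℝ[X]
  | 0 => 1
  | 1 => X - C (B w (X * 1) 1 / B w 1 1)
  | n + 2 => (X - C (B w (X * op w (n + 1)) (op w (n + 1)) / B w (op w (n + 1)) (op w (n + 1)))) *
      op w (n + 1) - C (B w (op w (n + 1)) (op w (n + 1)) / B w (op w n) (op w n)) * op w n

/-- Squared norm of the monic orthogonal polynomial. -/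
noncomputable def hn (w : ℝ → ℝ) (n : ℕ) : ℝ := B w (op w n) (op w n)

/-- The diagonal recurrence coefficient. -/
noncomputable def bn (w : ℝ → ℝ) (n : ℕ) : ℝ := B w (X * op w n) (op w n) / hn w n

theorem op_zero (w : ℝ → ℝ) : op w 0 = 1 := rfl

theorem op_one (w : ℝ → ℝ) : op w 1 = (X - C (bn w 0)) * op w 0 := by
  simp only [op, bn, hn, mul_one]

theorem op_succ_succ (w : ℝ → ℝ) (n : ℕ) : op w (n + 2) =
    (X - C (bn w (n + 1))) * op w (n + 1) - C (hn w (n + 1) / hn w n) * op w n := by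
  simp only [op, bn, hn]

theorem op_monic (w : ℝ → ℝ) (n : ℕ) : (op w n).Monic ∧ (op w n).natDegree = n := by
  induction n using Nat.twoStepInduction with
  | zero => simp [op]
  | one =>
    rw [op_one, op_zero, mul_one]
    exact ⟨monic_X_sub_C _, natDegree_X_sub_C _⟩
  | more n ih1 ih2 =>
    rw [op_succ_succ]
    have hm : ((X - C (bn w (n + 1))) * op w (n + 1)).Monic := (monic_X_sub_C _).mul ih2.1
    have hd : ((X - C (bn w (n + 1))) * op w (n + 1)).natDegree = n + 2 := by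
      rw [(monic_X_sub_C _).natDegree_mul ih2.1, natDegree_X_sub_C, ih2.2]; ring
    have hl : (C (hn w (n + 1) / hn w n) * op w n).natDegree ≤ n :=
      (natDegree_C_mul_le _ _).trans ih1.2.le
    have hlt : (C (hn w (n + 1) / hn w n) * op w n).degree <
        ((X - C (bn w (n + 1))) * op w (n + 1)).degree := by
      rw [degree_eq_natDegree hm.ne_zero, hd]
      refine lt_of_le_of_lt degree_le_natDegree ?_
      exact_mod_cast (by omega : (C (hn w (n + 1) / hn w n) * op w n).natDegree < n + 2)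
    refine ⟨hm.sub_of_left hlt, ?_⟩
    rw [natDegree_sub_eq_left_of_natDegree_lt (by omega), hd]

theorem op_ne_zero (w : ℝ → ℝ) (n : ℕ) : op w n ≠ 0 := (op_monic w n).1.ne_zero

theorem hn_pos {w : ℝ → ℝ} (hw : IsWeight w) (n : ℕ) : 0 < hn w n := B_pos hw (op_ne_zero w n)

/-- Recurrence relation for the monic polynomials. -/
theorem X_mul_op (w : ℝ → ℝ) (n : ℕ) : X * op w (n + 1) =
    op w (n + 2) + C (bn w (n + 1)) * op w (n + 1) + C (hn w (n + 1) / hn w n) * op w n := by
  rw [op_succ_succ]; ring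

theorem X_mul_op_zero (w : ℝ → ℝ) : X * op w 0 = op w 1 + C (bn w 0) * op w 0 := by
  rw [op_one]; ring

theorem op_orth {w : ℝ → ℝ} (hw : IsWeight w) (n : ℕ) : ∀ m, m < n → B w (op w m) (op w n) = 0 := by
  induction n using Nat.strong_induction_on with
  | _ n ih =>
    intro m hm
    rcases n with _ | _ | n
    · omega
    · have : m = 0 := by omega
      subst this
      rw [zero_add, op_one, sub_mul, B_sub_right hw, B_C_mul_right]
      have h0 := hn_pos hw 0
      rw [← B_X_mul, bn]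
      field_simp
      rw [hn]; ring
    · have h0 := hn_pos hw n
      have h1 := hn_pos hw (n + 1)
      rw [op_succ_succ, sub_mul, B_sub_right hw, B_sub_right hw, B_C_mul_right, B_C_mul_right,
        ← B_X_mul]
      rcases Nat.lt_or_ge m n with h | h
      · -- m < n
        have e1 : B w (op w m) (op w (n + 1)) = 0 := ih (n + 1) (by omega) m (by omega)
        have e2 : B w (op w m) (op w n) = 0 := ih n (by omega) m h
        have e3 : B w (X * op w m) (op w (n + 1)) = 0 := by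
          rcases m with _ | m
          · rw [X_mul_op_zero, B_add_left hw, B_C_mul_left, ih (n + 1) (by omega) 1 (by omega),
              ih (n + 1) (by omega) 0 (by omega)]
            ring
          · rw [X_mul_op, B_add_left hw, B_add_left hw, B_C_mul_left, B_C_mul_left,
              ih (n + 1) (by omega) (m + 2) (by omega), ih (n + 1) (by omega) (m + 1) (by omega),
              ih (n + 1) (by omega) m (by omega)]
            ring
        rw [e1, e2, e3]; ring
      · rcases Nat.lt_or_ge m (n + 1) with h' | h'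
        · have hmn : m = n := by omega
          subst hmn
          have e1 : B w (op w m) (op w (m + 1)) = 0 := ih (m + 1) (by omega) m (by omega)
          have e3 : B w (X * op w m) (op w (m + 1)) = hn w (m + 1) := by
            rcases m with _ | m
            · rw [X_mul_op_zero, B_add_left hw, B_C_mul_left, e1]
              rw [hn]; ring
            · rw [X_mul_op, B_add_left hw, B_add_left hw, B_C_mul_left, B_C_mul_left, e1,
                ih (m + 2) (by omega) m (by omega)]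
              have : B w (op w (m + 2)) (op w (m + 1 + 1)) = hn w (m + 1 + 1) := rfl
              rw [this]; ring
          rw [e1, e3]
          have : B w (op w m) (op w m) = hn w m := rfl
          rw [this]
          field_simp
          ring
        · have hmn : m = n + 1 := by omega
          subst hmn
          have e1 : B w (op w (n + 1)) (op w n) = 0 := by
            rw [B_comm]; exact ih (n + 1) (by omega) n (by omega)
          rw [e1]
          have : B w (op w (n + 1)) (op w (n + 1)) = hn w (n + 1) := rfl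
          rw [this, bn]
          field_simp
          ring

/-- Orthogonality to all polynomials of lower degree. -/
theorem op_orth_lower {w : ℝ → ℝ} (hw : IsWeight w) (n : ℕ) : ∀ m, m ≤ n → ∀ R : ℝ[X],
    R.degree < (m : WithBot ℕ) → B w R (op w n) = 0 := by
  intro m
  induction m with
  | zero =>
    intro _ R hR
    have : R = 0 := by
      rw [← degree_eq_bot]
      exact Nat.WithBot.lt_zero_iff.1 (by exact_mod_cast hR)
    rw [this]
    simp [B]
  | succ m ih =>
    intro hm R hR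
    have hR' : (R - C (R.coeff m) * op w m).degree < (m : WithBot ℕ) := by
      rw [degree_lt_iff_coeff_zero]
      intro k hk
      rw [coeff_sub, coeff_C_mul]
      rcases Nat.lt_or_ge m k with h | h
      · rw [(degree_lt_iff_coeff_zero R (m + 1)).1 hR k h,
          coeff_eq_zero_of_natDegree_lt (p := op w m) (by rw [(op_monic w m).2]; exact h)]
        ring
      · have : k = m := by omega
        rw [this]
        have h1 : (op w m).coeff m = 1 := by
          have := (op_monic w m).1.coeff_natDegree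
          rwa [(op_monic w m).2] at this
        rw [h1]; ring
    have h2 := ih (by omega) _ hR'
    rw [B_sub_left hw, B_C_mul_left, op_orth hw n m (by omega)] at h2
    linarith

end Part1

section Part2

theorem degree_monic_sub_lt {p q : ℝ[X]} {n : ℕ} (hp : p.Monic) (hq : q.Monic)
    (hpn : p.natDegree = n) (hqn : q.natDegree = n) : (p - q).degree < (n : WithBot ℕ) := by
  have h := degree_sub_lt_left (p := p) (q := q)
    (by rw [degree_eq_natDegree hp.ne_zero, degree_eq_natDegree hq.ne_zero, hpn, hqn]) hp.ne_zero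
    (by rw [hp.leadingCoeff, hq.leadingCoeff])
  rwa [degree_eq_natDegree hp.ne_zero, hpn] at h

/-- Extremal property of the monic orthogonal polynomial. -/
theorem hn_le {w : ℝ → ℝ} (hw : IsWeight w) {n : ℕ} {Q : ℝ[X]} (hQ : Q.Monic)
    (hQn : Q.natDegree = n) : hn w n ≤ B w Q Q := by
  set R := Q - op w n with hR
  have hdeg : R.degree < (n : WithBot ℕ) :=
    degree_monic_sub_lt hQ (op_monic w n).1 hQn (op_monic w n).2
  have h0 : B w R (op w n) = 0 := op_orth_lower hw n n le_rfl R hdeg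
  have hQ' : Q = op w n + R := by rw [hR]; ring
  have hnn : 0 ≤ B w R R := integral_nonneg fun x => mul_nonneg (mul_self_nonneg _) (hw.pos x).le
  rw [hQ', B_add_left hw, B_add_right hw, B_add_right hw, h0, B_comm w (op w n) R, h0, hn]
  linarith

/-- The perturbed weight. -/
def pw (w g : ℝ → ℝ) (σ : ℝ) (x : ℝ) : ℝ := w x * (1 + σ * g x)

section pert

variable {w g : ℝ → ℝ} {σ : ℝ}

theorem integrable_mul_bdd {f : ℝ → ℝ} (hf : Integrable f) (hg : Measurable g)
    (hg1 : ∀ x, |g x| ≤ 1) : Integrable (fun x => f x * g x) := by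
  refine Integrable.mono' hf.abs (hf.aestronglyMeasurable.mul hg.aestronglyMeasurable) ?_
  refine Filter.Eventually.of_forall fun x => ?_
  rw [Real.norm_eq_abs, abs_mul]
  calc |f x| * |g x| ≤ |f x| * 1 := mul_le_mul_of_nonneg_left (hg1 x) (abs_nonneg _)
    _ = |f x| := mul_one _

theorem isWeight_pw (hw : IsWeight w) (hg : Measurable g) (hg1 : ∀ x, |g x| ≤ 1)
    (hσ0 : 0 < σ) (hσ1 : σ < 1) : IsWeight (pw w g σ) := by
  refine ⟨?_, ?_, ?_⟩
  · exact hw.meas.mul ((hg.const_mul σ).const_add 1)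
  · intro x
    refine mul_pos (hw.pos x) ?_
    have := (abs_le.1 (hg1 x)).1
    nlinarith
  · intro k
    have h1 := (hw.mom k)
    have h2 := (integrable_mul_bdd h1 hg hg1).const_mul σ
    have := h1.add h2
    refine this.congr (Filter.Eventually.of_forall fun x => ?_)
    simp only [pw, Pi.add_apply]
    ring

/-- First order term of the perturbation. -/
noncomputable def en (w g : ℝ → ℝ) (n : ℕ) : ℝ :=
  (∫ x, (op w n).eval x * (op w n).eval x * w x * g x) / hn w n

theorem int_op_g (hw : IsWeight w) (hg : Measurable g) (hg1 : ∀ x, |g x| ≤ 1) (n : ℕ) :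
    Integrable (fun x => (op w n).eval x * (op w n).eval x * w x * g x) :=
  integrable_mul_bdd (hw.integrable₂ _ _) hg hg1

theorem pert_upper (hw : IsWeight w) (hg : Measurable g) (hg1 : ∀ x, |g x| ≤ 1)
    (hσ0 : 0 < σ) (hσ1 : σ < 1) (n : ℕ) :
    hn (pw w g σ) n ≤ hn w n * (1 + σ * en w g n) := by
  have h1 := hn_le (isWeight_pw hw hg hg1 hσ0 hσ1) (op_monic w n).1 (op_monic w n).2
  refine h1.trans (le_of_eq ?_)
  have hpos := hn_pos hw n
  have e1 : B (pw w g σ) (op w n) (op w n) = hn w n +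
      σ * ∫ x, (op w n).eval x * (op w n).eval x * w x * g x := by
    rw [hn, B, B, ← integral_const_mul, ← integral_add (hw.integrable₂ _ _)
      ((int_op_g hw hg hg1 n).const_mul σ)]
    congr 1
    funext x
    simp only [pw]
    ring
  rw [e1, en]
  field_simp

theorem pert_lower (hw : IsWeight w) (hg : Measurable g) (hg1 : ∀ x, |g x| ≤ 1)
    (hσ0 : 0 < σ) (hσ1 : σ < 1) (n : ℕ) :
    hn w n * (1 + σ * en w g n - σ ^ 2 / (1 - σ)) ≤ hn (pw w g σ) n := by
  have hw1 := isWeight_pw hw hg hg1 hσ0 hσ1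
  have hpos := hn_pos hw n
  set P := op w n with hP
  set R := op (pw w g σ) n - P with hR
  have hdeg : R.degree < (n : WithBot ℕ) :=
    degree_monic_sub_lt (op_monic _ n).1 (op_monic w n).1 (op_monic _ n).2 (op_monic w n).2
  have h0 : B w R P = 0 := op_orth_lower hw n n le_rfl R hdeg
  have hQ' : op (pw w g σ) n = P + R := by rw [hR]; ring
  have h1σ : 0 < 1 - σ := by linarith
  have hpt : ∀ x, (P.eval x * P.eval x * w x + σ * (P.eval x * P.eval x * w x * g x)
      + 2 * (R.eval x * P.eval x * w x)) - σ ^ 2 / (1 - σ) * (P.eval x * P.eval x * w x) ≤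
      (op (pw w g σ) n).eval x * (op (pw w g σ) n).eval x * pw w g σ x := by
    intro x
    rw [hQ', eval_add, pw]
    set a := P.eval x
    set r := R.eval x
    have hgx := abs_le.1 (hg1 x)
    have hwx := hw.pos x
    have key : a * a + σ * (a * a * g x) + 2 * (r * a) - σ ^ 2 / (1 - σ) * (a * a) ≤
        (a + r) * (a + r) * (1 + σ * g x) := by
      have h2 : 0 ≤ (σ / (1 - σ)) * (σ * a ^ 2) + 2 * σ * (a * r) * g x + (1 - σ) * r ^ 2 := by
        have h3 : 0 ≤ (1 - σ) * (|r| - σ / (1 - σ) * |a|) ^ 2 :=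
          mul_nonneg h1σ.le (sq_nonneg _)
        have h4 : (1 - σ) * (|r| - σ / (1 - σ) * |a|) ^ 2 =
            (1 - σ) * |r| ^ 2 - 2 * σ * (|a| * |r|) + (σ / (1 - σ)) * (σ * |a| ^ 2) := by
          field_simp
          ring
        rw [h4, sq_abs, sq_abs] at h3
        have h5 : -(|a| * |r|) ≤ (a * r) * g x := by
          have : |(a * r) * g x| ≤ |a| * |r| := by
            rw [abs_mul, abs_mul]
            calc |a| * |r| * |g x| ≤ |a| * |r| * 1 :=
                  mul_le_mul_of_nonneg_left (hg1 x) (by positivity)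
              _ = |a| * |r| := mul_one _
          exact (abs_le.1 this).1
        nlinarith
      have h6 : 0 ≤ σ * (1 + g x) * r ^ 2 := by
        have : 0 ≤ 1 + g x := by linarith
        positivity
      have h7 : (a + r) * (a + r) * (1 + σ * g x) -
          (a * a + σ * (a * a * g x) + 2 * (r * a) - σ ^ 2 / (1 - σ) * (a * a)) =
          ((σ / (1 - σ)) * (σ * a ^ 2) + 2 * σ * (a * r) * g x + (1 - σ) * r ^ 2) +
            σ * (1 + g x) * r ^ 2 := by
        field_simp
        ring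
      linarith
    calc _ = (a * a + σ * (a * a * g x) + 2 * (r * a) - σ ^ 2 / (1 - σ) * (a * a)) * w x := by ring
      _ ≤ ((a + r) * (a + r) * (1 + σ * g x)) * w x := mul_le_mul_of_nonneg_right key hwx.le
      _ = _ := by ring
  have i1 := hw.integrable₂ P P
  have i2 := (int_op_g hw hg hg1 n).const_mul σ
  have i3 := (hw.integrable₂ R P).const_mul 2
  have i4 := i1.const_mul (σ ^ 2 / (1 - σ))
  have hmono := integral_mono (((i1.add i2).add i3).sub i4) (hw1.integrable₂ _ _) hpt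
  rw [integral_sub' ((i1.add i2).add i3) i4, integral_add' (i1.add i2) i3, integral_add' i1 i2,
      integral_const_mul, integral_const_mul, integral_const_mul] at hmono
  have h8 : hn w n + σ * (∫ x, P.eval x * P.eval x * w x * g x) + 2 * B w R P -
        σ ^ 2 / (1 - σ) * hn w n ≤ hn (pw w g σ) n := hmono
  rw [h0] at h8
  rw [en]
  have h9 : hn w n * (1 + σ * ((∫ x, P.eval x * P.eval x * w x * g x) / hn w n) - σ ^ 2 / (1 - σ)) =
      hn w n + σ * (∫ x, P.eval x * P.eval x * w x * g x) - σ ^ 2 / (1 - σ) * hn w n := by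
    field_simp
  rw [h9]
  linarith

end pert

end Part2

section Part3

/-- Orthonormal polynomials. -/
noncomputable def pn (w : ℝ → ℝ) (n : ℕ) : ℝ[X] := C (1 / √(hn w n)) * op w n

/-- The off-diagonal recurrence coefficients. -/
noncomputable def an (w : ℝ → ℝ) (n : ℕ) : ℝ := √(hn w n / hn w (n - 1))

variable {w : ℝ → ℝ}

theorem an_pos (hw : IsWeight w) (n : ℕ) : 0 < an w n :=
  Real.sqrt_pos.2 (div_pos (hn_pos hw _) (hn_pos hw _))

theorem an_sq (hw : IsWeight w) (n : ℕ) : an w (n + 1) ^ 2 = hn w (n + 1) / hn w n := by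
  rw [an, Real.sq_sqrt (div_pos (hn_pos hw _) (hn_pos hw _)).le, Nat.add_sub_cancel]

theorem an_succ (hw : IsWeight w) (n : ℕ) : an w (n + 1) = √(hn w (n + 1)) / √(hn w n) := by
  rw [an, Nat.add_sub_cancel, Real.sqrt_div (hn_pos hw _).le]

theorem pn_orthonormal (hw : IsWeight w) (m n : ℕ) :
    B w (pn w m) (pn w n) = if m = n then 1 else 0 := by
  rw [pn, pn, B_C_mul_left, B_C_mul_right]
  split_ifs with h
  · subst h
    have h1 := hn_pos hw m
    have h2 : B w (op w m) (op w m) = hn w m := rfl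
    rw [h2]
    have h3 : √(hn w m) ≠ 0 := (Real.sqrt_pos.2 h1).ne'
    field_simp
    exact (Real.sq_sqrt h1.le).symm
  · rcases Nat.lt_or_gt_of_ne h with h | h
    · rw [op_orth hw n m h]; ring
    · rw [B_comm, op_orth hw m n h]; ring

theorem pn_natDegree (hw : IsWeight w) (n : ℕ) : (pn w n).natDegree = n := by
  have h1 : (1 / √(hn w n)) ≠ 0 := by
    have := Real.sqrt_pos.2 (hn_pos hw n)
    positivity
  rw [pn, natDegree_C_mul h1, (op_monic w n).2]

theorem pn_leadingCoeff (hw : IsWeight w) (n : ℕ) : 0 < (pn w n).leadingCoeff := by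
  rw [pn, leadingCoeff_C_mul_of_isUnit, (op_monic w n).1.leadingCoeff, mul_one]
  · have := Real.sqrt_pos.2 (hn_pos hw n)
    positivity
  · have := Real.sqrt_pos.2 (hn_pos hw n)
    exact (by positivity : (1 / √(hn w n)) ≠ 0).isUnit

theorem X_mul_pn (hw : IsWeight w) (n : ℕ) : X * pn w (n + 1) =
    C (an w (n + 2)) * pn w (n + 2) + C (bn w (n + 1)) * pn w (n + 1) +
      C (an w (n + 1)) * pn w n := by
  have s0 := Real.sqrt_pos.2 (hn_pos hw n)
  have s1 := Real.sqrt_pos.2 (hn_pos hw (n + 1))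
  have s2 := Real.sqrt_pos.2 (hn_pos hw (n + 2))
  have e1 : X * pn w (n + 1) = C (1 / √(hn w (n + 1))) * (X * op w (n + 1)) := by
    rw [pn]; ring
  rw [e1, X_mul_op, an_succ hw, an_succ hw, pn, pn, pn, mul_add, mul_add]
  have c1 : (C (√(hn w (n + 1 + 1)) / √(hn w (n + 1))) : ℝ[X]) * (C (1 / √(hn w (n + 2))) * op w (n + 2)) =
      C (1 / √(hn w (n + 1))) * op w (n + 2) := by
    rw [← mul_assoc, ← C_mul]
    congr 2
    field_simp
  have c2 : (C (√(hn w (n + 1)) / √(hn w n)) : ℝ[X]) * (C (1 / √(hn w n)) * op w n) =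
      C (1 / √(hn w (n + 1))) * (C (hn w (n + 1) / hn w n) * op w n) := by
    rw [← mul_assoc, ← mul_assoc, ← C_mul, ← C_mul]
    congr 2
    have q0 : hn w n = √(hn w n) ^ 2 := (Real.sq_sqrt (hn_pos hw n).le).symm
    have q1 : hn w (n + 1) = √(hn w (n + 1)) ^ 2 := (Real.sq_sqrt (hn_pos hw (n + 1)).le).symm
    have : hn w (n + 1) / hn w n = √(hn w (n + 1)) ^ 2 / √(hn w n) ^ 2 := by rw [← q0, ← q1]
    rw [this]
    field_simp
  rw [c1, c2]
  ring

theorem X_mul_pn_zero (hw : IsWeight w) : X * pn w 0 =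
    C (an w 1) * pn w 1 + C (bn w 0) * pn w 0 := by
  have s0 := Real.sqrt_pos.2 (hn_pos hw 0)
  have s1 := Real.sqrt_pos.2 (hn_pos hw 1)
  have e1 : X * pn w 0 = C (1 / √(hn w 0)) * (X * op w 0) := by
    rw [pn]; ring
  rw [e1, X_mul_op_zero, an_succ hw, pn, pn, mul_add]
  have c1 : (C (√(hn w (0 + 1)) / √(hn w 0)) : ℝ[X]) * (C (1 / √(hn w 1)) * op w 1) =
      C (1 / √(hn w 0)) * op w 1 := by
    rw [← mul_assoc, ← C_mul]
    congr 2
    field_simp
  rw [c1]
  ring

/-- Parity of orthogonal polynomials for even weights. -/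
theorem bn_zero_of_parity (heven : ∀ x, w (-x) = w x) (n : ℕ)
    (hpar : ∀ x, (op w n).eval (-x) = (-1) ^ n * (op w n).eval x) : bn w n = 0 := by
  have h : B w (X * op w n) (op w n) = 0 := by
    have h1 : B w (X * op w n) (op w n) = - B w (X * op w n) (op w n) := by
      conv_lhs => rw [B, ← integral_neg_eq_self]
      rw [B, ← integral_neg]
      congr 1
      funext x
      rw [eval_mul, eval_mul, eval_X, eval_X, hpar, heven]
      have : ((-1 : ℝ) ^ n) * (-1) ^ n = 1 := by rw [← mul_pow]; norm_num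
      linear_combination (-x * (op w n).eval x * (op w n).eval x * w x) * this
    linarith
  rw [bn, h, zero_div]

theorem parity (heven : ∀ x, w (-x) = w x) (n : ℕ) :
    ∀ x, (op w n).eval (-x) = (-1) ^ n * (op w n).eval x := by
  induction n using Nat.twoStepInduction with
  | zero => intro x; simp [op_zero]
  | one =>
    intro x
    have h0 : bn w 0 = 0 := bn_zero_of_parity heven 0 (by intro x; simp [op_zero])
    rw [op_one, h0, op_zero]
    simp
  | more n ih1 ih2 =>
    intro x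
    have h0 : bn w (n + 1) = 0 := bn_zero_of_parity heven (n + 1) ih2
    rw [op_succ_succ, h0]
    simp only [map_zero, sub_zero, eval_sub, eval_mul, eval_X, eval_C, ih1, ih2]
    ring

theorem bn_zero (heven : ∀ x, w (-x) = w x) (n : ℕ) : bn w n = 0 :=
  bn_zero_of_parity heven n (parity heven n)

theorem X_mul_pn_even (hw : IsWeight w) (heven : ∀ x, w (-x) = w x) (n : ℕ) :
    X * pn w (n + 1) = C (an w (n + 2)) * pn w (n + 2) + C (an w (n + 1)) * pn w n := by
  rw [X_mul_pn hw, bn_zero heven, map_zero, zero_mul, add_zero]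

theorem E2 (hw : IsWeight w) (heven : ∀ x, w (-x) = w x) (n : ℕ) :
    B w (X * pn w (n + 1)) (X * pn w (n + 1)) = an w (n + 2) ^ 2 + an w (n + 1) ^ 2 := by
  rw [X_mul_pn_even hw heven]
  simp only [B_add_left hw, B_add_right hw, B_C_mul_left, B_C_mul_right, pn_orthonormal hw]
  have h1 : ¬ (n + 2 = n) := by omega
  have h2 : ¬ (n = n + 2) := by omega
  simp only [h1, h2, if_true, if_false]
  ring

theorem E4 (hw : IsWeight w) (heven : ∀ x, w (-x) = w x) (n : ℕ) :
    B w (X * (X * pn w (n + 2))) (X * (X * pn w (n + 2))) =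
      (an w (n + 3) * an w (n + 4)) ^ 2 + (an w (n + 3) ^ 2 + an w (n + 2) ^ 2) ^ 2 +
        (an w (n + 2) * an w (n + 1)) ^ 2 := by
  have e : X * (X * pn w (n + 2)) = C (an w (n + 3) * an w (n + 4)) * pn w (n + 4) +
      C (an w (n + 3) ^ 2 + an w (n + 2) ^ 2) * pn w (n + 2) +
      C (an w (n + 2) * an w (n + 1)) * pn w n := by
    rw [X_mul_pn_even hw heven (n + 1)]
    have e1 : X * (C (an w (n + 1 + 2)) * pn w (n + 1 + 2) + C (an w (n + 1 + 1)) * pn w (n + 1)) =
        C (an w (n + 1 + 2)) * (X * pn w (n + 2 + 1)) + C (an w (n + 1 + 1)) * (X * pn w (n + 1)) := by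
      ring
    rw [e1, X_mul_pn_even hw heven, X_mul_pn_even hw heven]
    simp only [map_add, map_mul, map_pow]
    ring
  rw [e]
  simp only [B_add_left hw, B_add_right hw, B_C_mul_left, B_C_mul_right, pn_orthonormal hw]
  have h1 : ¬ (n + 2 = n) := by omega
  have h2 : ¬ (n = n + 2) := by omega
  have h3 : ¬ (n + 4 = n) := by omega
  have h4 : ¬ (n = n + 4) := by omega
  have h5 : ¬ (n + 4 = n + 2) := by omega
  have h6 : ¬ (n + 2 = n + 4) := by omega
  simp only [h1, h2, h3, h4, h5, h6, if_true, if_false]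
  ring

/-- The difference of consecutive densities. -/
noncomputable def Fn (w : ℝ → ℝ) (n : ℕ) (x : ℝ) : ℝ :=
  ((pn w (n + 1)).eval x ^ 2 - (pn w n).eval x ^ 2) * w x

theorem integrable_sq (hw : IsWeight w) (p : ℝ[X]) : Integrable (fun x => p.eval x ^ 2 * w x) := by
  have := hw.integrable₂ p p
  refine this.congr (Filter.Eventually.of_forall fun x => ?_)
  simp only [pow_two]

theorem Fn_integrable (hw : IsWeight w) (n : ℕ) : Integrable (Fn w n) := by
  have := (integrable_sq hw (pn w (n + 1))).sub (integrable_sq hw (pn w n))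
  refine this.congr (Filter.Eventually.of_forall fun x => ?_)
  simp only [Fn, Pi.sub_apply]
  ring

/-- Mass of the difference of consecutive densities outside `[-M, M]`. -/
noncomputable def Dn (w : ℝ → ℝ) (M : ℝ) (n : ℕ) : ℝ := ∫ x in {x : ℝ | M < |x|}, |Fn w n x|

theorem pointwise_ineq (a a' x u v s : ℝ) (ha : 0 < a) (hx : x * v = a' * s + a * u) :
    x ^ 2 * (4 * a ^ 2 - x ^ 2) * v ^ 2 / (2 * a ^ 2) ≤
      4 * (a' ^ 2 * |s ^ 2 - v ^ 2| + a ^ 2 * |v ^ 2 - u ^ 2| + |a' ^ 2 - a ^ 2| * v ^ 2) +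
        x ^ 2 * v ^ 2 / 6 := by
  set F := a' ^ 2 * s ^ 2 - a ^ 2 * u ^ 2 with hF
  set A := 2 * a' ^ 2 * (s ^ 2 - v ^ 2) + 2 * a ^ 2 * (u ^ 2 - v ^ 2) +
    2 * (a' ^ 2 - a ^ 2) * v ^ 2 with hA
  set R := a' ^ 2 * |s ^ 2 - v ^ 2| + a ^ 2 * |v ^ 2 - u ^ 2| + |a' ^ 2 - a ^ 2| * v ^ 2 with hR
  have hR0 : 0 ≤ R := by positivity
  have hFR : |F| ≤ R := by
    have : F = a' ^ 2 * (s ^ 2 - v ^ 2) + a ^ 2 * (v ^ 2 - u ^ 2) + (a' ^ 2 - a ^ 2) * v ^ 2 := by
      rw [hF]; ring
    rw [this]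
    refine (abs_add_le _ _).trans (add_le_add ((abs_add_le _ _).trans (add_le_add ?_ ?_)) ?_)
    · rw [abs_mul, abs_of_nonneg (sq_nonneg a')]
    · rw [abs_mul, abs_of_nonneg (sq_nonneg a)]
    · rw [abs_mul, abs_of_nonneg (sq_nonneg v)]
  have hAR : |A| ≤ 2 * R := by
    have : A = 2 * (a' ^ 2 * (s ^ 2 - v ^ 2) + a ^ 2 * (u ^ 2 - v ^ 2) +
        (a' ^ 2 - a ^ 2) * v ^ 2) := by rw [hA]; ring
    rw [this, abs_mul, abs_of_pos (by norm_num : (0:ℝ) < 2)]
    refine mul_le_mul_of_nonneg_left ?_ (by norm_num)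
    refine (abs_add_le _ _).trans (add_le_add ((abs_add_le _ _).trans (add_le_add ?_ ?_)) ?_)
    · rw [abs_mul, abs_of_nonneg (sq_nonneg a')]
    · rw [abs_mul, abs_of_nonneg (sq_nonneg a), abs_sub_comm]
    · rw [abs_mul, abs_of_nonneg (sq_nonneg v)]
  have hid : F ^ 2 = A * (x ^ 2 * v ^ 2) + (4 * a ^ 2 - x ^ 2) * x ^ 2 * v ^ 4 := by
    have h1 : x ^ 2 * v ^ 2 = (a' * s + a * u) ^ 2 := by rw [← hx]; ring
    have h2 : (4 * a ^ 2 - x ^ 2) * x ^ 2 * v ^ 4 =
        (4 * a ^ 2 * v ^ 2 - x ^ 2 * v ^ 2) * (x ^ 2 * v ^ 2) := by ring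
    rw [h2, h1, hF, hA]
    ring
  rcases le_or_gt (4 * a ^ 2 - x ^ 2) 0 with hz | hz
  · have h1 : x ^ 2 * (4 * a ^ 2 - x ^ 2) * v ^ 2 / (2 * a ^ 2) ≤ 0 := by
      apply div_nonpos_of_nonpos_of_nonneg _ (by positivity)
      have : x ^ 2 * (4 * a ^ 2 - x ^ 2) * v ^ 2 = (x ^ 2 * v ^ 2) * (4 * a ^ 2 - x ^ 2) := by ring
      rw [this]
      exact mul_nonpos_of_nonneg_of_nonpos (by positivity) hz
    have h2 : 0 ≤ x ^ 2 * v ^ 2 / 6 := by positivity
    linarith
  · set T := |F| + (3 * |A| + x ^ 2 * v ^ 2 / 3) / 2 with hT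
    have hT0 : 0 ≤ T := by positivity
    have hz0 : 0 ≤ x ^ 2 * (4 * a ^ 2 - x ^ 2) := by positivity
    have hz4 : x ^ 2 * (4 * a ^ 2 - x ^ 2) ≤ 4 * a ^ 4 := by
      nlinarith [sq_nonneg (x ^ 2 - 2 * a ^ 2)]
    have hsq : (x ^ 2 * (4 * a ^ 2 - x ^ 2) * v ^ 2 / (2 * a ^ 2)) ^ 2 ≤ T ^ 2 := by
      have h1 : (x ^ 2 * (4 * a ^ 2 - x ^ 2) * v ^ 2 / (2 * a ^ 2)) ^ 2 =
          (x ^ 2 * (4 * a ^ 2 - x ^ 2)) * ((x ^ 2 * (4 * a ^ 2 - x ^ 2)) / (4 * a ^ 4)) * v ^ 4 := by
        field_simp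
        ring
      have h2 : (x ^ 2 * (4 * a ^ 2 - x ^ 2)) / (4 * a ^ 4) ≤ 1 := by
        rw [div_le_one (by positivity)]; exact hz4
      have h3 : (x ^ 2 * (4 * a ^ 2 - x ^ 2)) * ((x ^ 2 * (4 * a ^ 2 - x ^ 2)) / (4 * a ^ 4)) * v ^ 4
          ≤ (x ^ 2 * (4 * a ^ 2 - x ^ 2)) * 1 * v ^ 4 := by gcongr
      have h4 : (x ^ 2 * (4 * a ^ 2 - x ^ 2)) * 1 * v ^ 4 = F ^ 2 - A * (x ^ 2 * v ^ 2) := by
        rw [hid]; ring
      have h5 : -(A * (x ^ 2 * v ^ 2)) ≤ |A| * (x ^ 2 * v ^ 2) := by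
        have := neg_abs_le A
        have h6 : 0 ≤ x ^ 2 * v ^ 2 := by positivity
        nlinarith
      have h6 : |A| * (x ^ 2 * v ^ 2) ≤ ((3 * |A| + x ^ 2 * v ^ 2 / 3) / 2) ^ 2 := by
        nlinarith [sq_nonneg (3 * |A| - x ^ 2 * v ^ 2 / 3)]
      have h7 : F ^ 2 + ((3 * |A| + x ^ 2 * v ^ 2 / 3) / 2) ^ 2 ≤ T ^ 2 := by
        rw [hT]
        have h8 : 0 ≤ |F| * ((3 * |A| + x ^ 2 * v ^ 2 / 3) / 2) := by positivity
        have h9 : F ^ 2 = |F| ^ 2 := (sq_abs F).symm
        rw [h9]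
        nlinarith
      rw [h1]
      linarith
    have hle : x ^ 2 * (4 * a ^ 2 - x ^ 2) * v ^ 2 / (2 * a ^ 2) ≤ T :=
      (le_abs_self _).trans (abs_le_of_sq_le_sq hsq hT0)
    refine hle.trans ?_
    rw [hT]
    linarith

end Part3

section Part4

variable {w : ℝ → ℝ}

theorem measurableSet_tail (M : ℝ) : MeasurableSet {x : ℝ | M < |x|} :=
  measurableSet_lt measurable_const measurable_norm

theorem integral_sq_pn (hw : IsWeight w) (n : ℕ) : ∫ x, (pn w n).eval x ^ 2 * w x = 1 := by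
  have h := pn_orthonormal hw n n
  rw [if_pos rfl, B] at h
  rw [← h]
  congr 1
  funext x
  ring

theorem abs_Fn (hw : IsWeight w) (n : ℕ) (x : ℝ) :
    |Fn w n x| = |(pn w (n + 1)).eval x ^ 2 - (pn w n).eval x ^ 2| * w x := by
  rw [Fn, abs_mul, abs_of_pos (hw.pos x)]

theorem D_ineq (hw : IsWeight w) (heven : ∀ x, w (-x) = w x) (M : ℝ) (n : ℕ) :
    (4 * (an w (n + 3) ^ 2 + an w (n + 2) ^ 2) -
      ((an w (n + 3) * an w (n + 4)) ^ 2 + (an w (n + 3) ^ 2 + an w (n + 2) ^ 2) ^ 2 +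
        (an w (n + 2) * an w (n + 1)) ^ 2) / an w (n + 2) ^ 2) / 2 ≤
    4 * (an w (n + 3) ^ 2 * Dn w M (n + 2) + an w (n + 2) ^ 2 * Dn w M (n + 1) +
      |an w (n + 3) ^ 2 - an w (n + 2) ^ 2|) + (an w (n + 3) ^ 2 + an w (n + 2) ^ 2) / 6 +
      2 * M ^ 2 := by
  set a := an w (n + 2) with ha
  set a' := an w (n + 3) with ha'
  have hapos : 0 < a := an_pos hw _
  have ha2 : 0 < a ^ 2 := pow_pos hapos 2
  set S := {x : ℝ | M < |x|} with hS
  have hSm : MeasurableSet S := measurableSet_tail M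
  have i1 : Integrable (fun x => (pn w (n + 2)).eval x ^ 2 * w x) := integrable_sq hw _
  have i2 : Integrable (fun x => x ^ 2 * (pn w (n + 2)).eval x ^ 2 * w x) := by
    have := integrable_sq hw (X * pn w (n + 2))
    refine this.congr (Filter.Eventually.of_forall fun x => ?_)
    simp only [eval_mul, eval_X]; ring
  have i4 : Integrable (fun x => x ^ 4 * (pn w (n + 2)).eval x ^ 2 * w x) := by
    have := integrable_sq hw (X * (X * pn w (n + 2)))
    refine this.congr (Filter.Eventually.of_forall fun x => ?_)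
    simp only [eval_mul, eval_X]; ring
  have e1 : ∫ x, (pn w (n + 2)).eval x ^ 2 * w x = 1 := integral_sq_pn hw _
  have e2 : ∫ x, x ^ 2 * (pn w (n + 2)).eval x ^ 2 * w x = a' ^ 2 + a ^ 2 := by
    have h := E2 hw heven (n + 1)
    rw [B] at h
    rw [← h]
    congr 1
    funext x
    simp only [eval_mul, eval_X]; ring
  have e4 : ∫ x, x ^ 4 * (pn w (n + 2)).eval x ^ 2 * w x =
      (a' * an w (n + 4)) ^ 2 + (a' ^ 2 + a ^ 2) ^ 2 + (a * an w (n + 1)) ^ 2 := by
    have h := E4 hw heven n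
    rw [B] at h
    rw [← h]
    congr 1
    funext x
    simp only [eval_mul, eval_X]; ring
  have j1 : Integrable (S.indicator fun x => |Fn w (n + 2) x|) :=
    (Fn_integrable hw _).abs.indicator hSm
  have j0 : Integrable (S.indicator fun x => |Fn w (n + 1) x|) :=
    (Fn_integrable hw _).abs.indicator hSm
  have d1 : ∫ x, S.indicator (fun x => |Fn w (n + 2) x|) x = Dn w M (n + 2) := by
    rw [integral_indicator hSm, Dn]
  have d0 : ∫ x, S.indicator (fun x => |Fn w (n + 1) x|) x = Dn w M (n + 1) := by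
    rw [integral_indicator hSm, Dn]
  have hpt : ∀ x, 2 * (x ^ 2 * (pn w (n + 2)).eval x ^ 2 * w x) -
      1 / (2 * a ^ 2) * (x ^ 4 * (pn w (n + 2)).eval x ^ 2 * w x) ≤
      4 * a' ^ 2 * S.indicator (fun x => |Fn w (n + 2) x|) x +
      4 * a ^ 2 * S.indicator (fun x => |Fn w (n + 1) x|) x +
      (4 * |a' ^ 2 - a ^ 2| + 2 * M ^ 2) * ((pn w (n + 2)).eval x ^ 2 * w x) +
      1 / 6 * (x ^ 2 * (pn w (n + 2)).eval x ^ 2 * w x) := by
    intro x
    have hwx := (hw.pos x).le
    set v := (pn w (n + 2)).eval x with hv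
    have hrec : x * v = a' * (pn w (n + 3)).eval x + a * (pn w (n + 1)).eval x := by
      have := congrArg (eval x) (X_mul_pn_even hw heven (n + 1))
      simp only [eval_add, eval_mul, eval_C, eval_X] at this
      exact this
    have hlhs : 2 * (x ^ 2 * v ^ 2 * w x) - 1 / (2 * a ^ 2) * (x ^ 4 * v ^ 2 * w x) =
        (x ^ 2 * (4 * a ^ 2 - x ^ 2) * v ^ 2 / (2 * a ^ 2)) * w x := by
      field_simp
      ring
    rw [hlhs]
    by_cases hx : x ∈ S
    · rw [Set.indicator_of_mem hx, Set.indicator_of_mem hx, abs_Fn hw, abs_Fn hw]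
      have key := pointwise_ineq a a' x ((pn w (n + 1)).eval x) v ((pn w (n + 3)).eval x) hapos hrec
      have h1 := mul_le_mul_of_nonneg_right key hwx
      refine h1.trans ?_
      have h2 : 0 ≤ 2 * M ^ 2 * (v ^ 2 * w x) :=
        mul_nonneg (mul_nonneg zero_le_two (sq_nonneg M)) (mul_nonneg (sq_nonneg v) hwx)
      have e5 : n + 2 + 1 = n + 3 := rfl
      have e6 : n + 1 + 1 = n + 2 := rfl
      rw [e5, e6, ← hv]
      have e7 : 4 * a' ^ 2 * (|(pn w (n + 3)).eval x ^ 2 - v ^ 2| * w x) +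
          4 * a ^ 2 * (|v ^ 2 - (pn w (n + 1)).eval x ^ 2| * w x) +
          (4 * |a' ^ 2 - a ^ 2| + 2 * M ^ 2) * (v ^ 2 * w x) + 1 / 6 * (x ^ 2 * v ^ 2 * w x) =
          (4 * (a' ^ 2 * |(pn w (n + 3)).eval x ^ 2 - v ^ 2| +
            a ^ 2 * |v ^ 2 - (pn w (n + 1)).eval x ^ 2| + |a' ^ 2 - a ^ 2| * v ^ 2) +
            x ^ 2 * v ^ 2 / 6) * w x + 2 * M ^ 2 * (v ^ 2 * w x) := by ring
      linarith
    · rw [Set.indicator_of_notMem hx, Set.indicator_of_notMem hx]
      have hx' : |x| ≤ M := not_lt.1 hx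
      have hx2 : x ^ 2 ≤ M ^ 2 := by
        rw [← sq_abs]
        exact pow_le_pow_left₀ (abs_nonneg _) hx' 2
      have h1 : x ^ 2 * (4 * a ^ 2 - x ^ 2) * v ^ 2 / (2 * a ^ 2) ≤ 2 * M ^ 2 * v ^ 2 := by
        rw [div_le_iff₀ (mul_pos two_pos ha2)]
        have h2 : x ^ 2 * (4 * a ^ 2 - x ^ 2) ≤ M ^ 2 * (4 * a ^ 2) := by
          nlinarith [mul_nonneg (sub_nonneg.2 hx2) (mul_nonneg zero_le_four ha2.le),
            sq_nonneg (x ^ 2)]
        calc x ^ 2 * (4 * a ^ 2 - x ^ 2) * v ^ 2 ≤ (M ^ 2 * (4 * a ^ 2)) * v ^ 2 :=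
              mul_le_mul_of_nonneg_right h2 (sq_nonneg v)
          _ = 2 * M ^ 2 * v ^ 2 * (2 * a ^ 2) := by ring
      have h3 := mul_le_mul_of_nonneg_right h1 hwx
      refine h3.trans ?_
      have h4 : 0 ≤ |a' ^ 2 - a ^ 2| * (v ^ 2 * w x) :=
        mul_nonneg (abs_nonneg _) (mul_nonneg (sq_nonneg v) hwx)
      have h5 : 0 ≤ x ^ 2 * v ^ 2 * w x :=
        mul_nonneg (mul_nonneg (sq_nonneg x) (sq_nonneg v)) hwx
      have h6 : 4 * a' ^ 2 * 0 + 4 * a ^ 2 * 0 +
          (4 * |a' ^ 2 - a ^ 2| + 2 * M ^ 2) * (v ^ 2 * w x) + 1 / 6 * (x ^ 2 * v ^ 2 * w x) =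
          2 * M ^ 2 * v ^ 2 * w x + 4 * (|a' ^ 2 - a ^ 2| * (v ^ 2 * w x)) +
            1 / 6 * (x ^ 2 * v ^ 2 * w x) := by ring
      linarith
  have hint := integral_mono ((i2.const_mul 2).sub (i4.const_mul (1 / (2 * a ^ 2))))
    ((((j1.const_mul (4 * a' ^ 2)).add (j0.const_mul (4 * a ^ 2))).add
      (i1.const_mul (4 * |a' ^ 2 - a ^ 2| + 2 * M ^ 2))).add (i2.const_mul (1 / 6))) hpt
  rw [integral_sub' (i2.const_mul 2) (i4.const_mul (1 / (2 * a ^ 2))),
    integral_add' (((j1.const_mul (4 * a' ^ 2)).add (j0.const_mul (4 * a ^ 2))).add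
      (i1.const_mul (4 * |a' ^ 2 - a ^ 2| + 2 * M ^ 2))) (i2.const_mul (1 / 6)),
    integral_add' ((j1.const_mul (4 * a' ^ 2)).add (j0.const_mul (4 * a ^ 2)))
      (i1.const_mul (4 * |a' ^ 2 - a ^ 2| + 2 * M ^ 2)),
    integral_add' (j1.const_mul (4 * a' ^ 2)) (j0.const_mul (4 * a ^ 2)),
    integral_const_mul, integral_const_mul, integral_const_mul, integral_const_mul,
    integral_const_mul, integral_const_mul, e1, e2, e4, d1, d0] at hint
  have hl : (4 * (a' ^ 2 + a ^ 2) - ((a' * an w (n + 4)) ^ 2 + (a' ^ 2 + a ^ 2) ^ 2 +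
      (a * an w (n + 1)) ^ 2) / a ^ 2) / 2 = 2 * (a' ^ 2 + a ^ 2) - 1 / (2 * a ^ 2) *
      ((a' * an w (n + 4)) ^ 2 + (a' ^ 2 + a ^ 2) ^ 2 + (a * an w (n + 1)) ^ 2) := by
    field_simp
    ring
  rw [hl]
  linarith

/-- Lower bound for the oscillation of consecutive densities. -/
theorem D_lower (hw : IsWeight w) (heven : ∀ x, w (-x) = w x)
    (h1 : Tendsto (fun n => an w (n + 1) / an w n) atTop (𝓝 1))
    (h2 : Tendsto (an w) atTop atTop) (M : ℝ) :
    ∀ᶠ n in atTop, 7 / 100 ≤ Dn w M (n + 1) ∨ 7 / 100 ≤ Dn w M (n + 2) := by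
  have r3 : Tendsto (fun n => an w (n + 3) / an w (n + 2)) atTop (𝓝 1) :=
    h1.comp (tendsto_add_atTop_nat 2)
  have r3' : Tendsto (fun n => an w (n + 4) / an w (n + 3)) atTop (𝓝 1) :=
    h1.comp (tendsto_add_atTop_nat 3)
  have r4 : Tendsto (fun n => an w (n + 4) / an w (n + 2)) atTop (𝓝 1) := by
    have := r3'.mul r3
    rw [mul_one] at this
    refine this.congr fun n => ?_
    have := (an_pos hw (n + 3)).ne'
    have := (an_pos hw (n + 2)).ne'
    field_simp
  have r1 : Tendsto (fun n => an w (n + 1) / an w (n + 2)) atTop (𝓝 1) := by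
    have := (h1.comp (tendsto_add_atTop_nat 1)).inv₀ one_ne_zero
    rw [inv_one] at this
    refine this.congr fun n => ?_
    simp only [Function.comp]
    rw [inv_div]
  have r0 : Tendsto (fun n => 2 * M ^ 2 / an w (n + 2) ^ 2) atTop (𝓝 0) := by
    have h3 : Tendsto (fun n => an w (n + 2) ^ 2) atTop atTop :=
      (tendsto_pow_atTop two_ne_zero).comp (h2.comp (tendsto_add_atTop_nat 2))
    exact h3.const_div_atTop _
  have hΦ : Tendsto (fun n => (4 * ((an w (n + 3) / an w (n + 2)) ^ 2 + 1) -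
      (((an w (n + 3) / an w (n + 2)) * (an w (n + 4) / an w (n + 2))) ^ 2 +
        ((an w (n + 3) / an w (n + 2)) ^ 2 + 1) ^ 2 + (an w (n + 1) / an w (n + 2)) ^ 2)) / 2 -
      (4 * ((an w (n + 3) / an w (n + 2)) ^ 2 * (7 / 100) + 7 / 100 +
        |(an w (n + 3) / an w (n + 2)) ^ 2 - 1|) + ((an w (n + 3) / an w (n + 2)) ^ 2 + 1) / 6 +
        2 * M ^ 2 / an w (n + 2) ^ 2)) atTop
      (𝓝 ((4 * (1 ^ 2 + 1) - ((1 * 1) ^ 2 + (1 ^ 2 + 1) ^ 2 + 1 ^ 2)) / 2 -
        (4 * (1 ^ 2 * (7 / 100) + 7 / 100 + |(1 : ℝ) ^ 2 - 1|) + (1 ^ 2 + 1) / 6 + 0))) := by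
    refine Tendsto.sub ?_ ?_
    · refine Tendsto.div_const ?_ 2
      refine Tendsto.sub (((r3.pow 2).add_const 1).const_mul 4) ?_
      exact (((r3.mul r4).pow 2).add (((r3.pow 2).add_const 1).pow 2)).add (r1.pow 2)
    · refine Tendsto.add (Tendsto.add ?_ ?_) r0
      · refine Tendsto.const_mul 4 ?_
        refine Tendsto.add ((((r3.pow 2).mul_const (7 / 100)).add_const (7 / 100))) ?_
        exact ((r3.pow 2).sub_const 1).abs
      · exact ((r3.pow 2).add_const 1).div_const 6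
  have hpos : (0 : ℝ) < (4 * (1 ^ 2 + 1) - ((1 * 1) ^ 2 + (1 ^ 2 + 1) ^ 2 + 1 ^ 2)) / 2 -
        (4 * (1 ^ 2 * (7 / 100) + 7 / 100 + |(1 : ℝ) ^ 2 - 1|) + (1 ^ 2 + 1) / 6 + 0) := by
    norm_num
  filter_upwards [hΦ.eventually (lt_mem_nhds hpos)] with n hn
  by_contra hcon
  rw [not_or, not_le, not_le] at hcon
  obtain ⟨hD1, hD2⟩ := hcon
  have hineq := D_ineq hw heven M n
  set a := an w (n + 2) with ha
  have hapos : 0 < a := an_pos hw _
  have ha2 : 0 < a ^ 2 := pow_pos hapos 2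
  have hineq' := div_le_div_of_nonneg_right hineq ha2.le
  have hl : (4 * (an w (n + 3) ^ 2 + a ^ 2) -
      ((an w (n + 3) * an w (n + 4)) ^ 2 + (an w (n + 3) ^ 2 + a ^ 2) ^ 2 +
        (a * an w (n + 1)) ^ 2) / a ^ 2) / 2 / a ^ 2 =
      (4 * ((an w (n + 3) / a) ^ 2 + 1) -
      (((an w (n + 3) / a) * (an w (n + 4) / a)) ^ 2 +
        ((an w (n + 3) / a) ^ 2 + 1) ^ 2 + (an w (n + 1) / a) ^ 2)) / 2 := by
    field_simp
  have hab : |(an w (n + 3) / a) ^ 2 - 1| = |an w (n + 3) ^ 2 - a ^ 2| / a ^ 2 := by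
    rw [← abs_of_pos ha2, ← abs_div, abs_of_pos ha2]
    congr 1
    field_simp
  have hr : (4 * (an w (n + 3) ^ 2 * Dn w M (n + 2) + a ^ 2 * Dn w M (n + 1) +
      |an w (n + 3) ^ 2 - a ^ 2|) + (an w (n + 3) ^ 2 + a ^ 2) / 6 + 2 * M ^ 2) / a ^ 2 =
      4 * ((an w (n + 3) / a) ^ 2 * Dn w M (n + 2) + Dn w M (n + 1) +
        |(an w (n + 3) / a) ^ 2 - 1|) + ((an w (n + 3) / a) ^ 2 + 1) / 6 + 2 * M ^ 2 / a ^ 2 := by
    rw [hab]
    field_simp
  rw [hl, hr] at hineq'
  have h5 : (an w (n + 3) / a) ^ 2 * Dn w M (n + 2) ≤ (an w (n + 3) / a) ^ 2 * (7 / 100) :=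
    mul_le_mul_of_nonneg_left hD2.le (sq_nonneg _)
  linarith

end Part4

section Part5

/-- A sign function. -/
noncomputable def sg (y : ℝ) : ℝ := if 0 ≤ y then 1 else -1

theorem sg_meas : Measurable sg :=
  Measurable.ite (measurableSet_Ici) measurable_const measurable_const

theorem mul_sg (y : ℝ) : y * sg y = |y| := by
  unfold sg
  split_ifs with h
  · rw [abs_of_nonneg h, mul_one]
  · rw [abs_of_neg (not_le.1 h)]; ring

theorem abs_sg (y : ℝ) : |sg y| ≤ 1 := by
  unfold sg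
  split_ifs <;> simp

/-- State of the gliding hump construction. -/
structure St where
  M : ℝ
  N : ℕ
  G : ℝ → ℝ
  meas : Measurable G
  bd : ∀ x, |G x| ≤ 1
  nonneg : 0 ≤ M

theorem measurableSet_tail' (M : ℝ) : MeasurableSet {x : ℝ | M < |x|} :=
  measurableSet_lt measurable_const measurable_norm

theorem measurableSet_ball' (M : ℝ) : MeasurableSet {x : ℝ | |x| ≤ M} :=
  measurableSet_le measurable_norm measurable_const

theorem tail_small (f : ℝ → ℝ) (hf : Integrable f) (ε : ℝ) (hε : 0 < ε) (M : ℝ) :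
    ∃ M' : ℝ, M + 1 ≤ M' ∧ ∫ x in {x : ℝ | M' < |x|}, |f x| ≤ ε := by
  have hanti : Antitone (fun k : ℕ => {x : ℝ | (k : ℝ) < |x|}) := by
    intro i j hij x hx
    have : (i : ℝ) ≤ j := by exact_mod_cast hij
    exact lt_of_le_of_lt this hx
  have hlim := tendsto_setIntegral_of_antitone (μ := volume) (f := fun x => |f x|)
    (s := fun k : ℕ => {x : ℝ | (k : ℝ) < |x|})
    (fun k : ℕ => measurableSet_tail' (k : ℝ)) hanti ⟨0, hf.abs.integrableOn⟩
  have hempty : (⋂ n : ℕ, {x : ℝ | (n : ℝ) < |x|}) = ∅ := by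
    ext x
    simp only [Set.mem_iInter, Set.mem_ofPred_eq, Set.mem_empty_iff_false, iff_false, not_forall,
      not_lt]
    exact exists_nat_ge |x|
  rw [hempty] at hlim
  simp only [Measure.restrict_empty, integral_zero_measure] at hlim
  obtain ⟨k, hk⟩ := ((hlim.eventually (ge_mem_nhds hε)).and
    (eventually_ge_atTop ⌈M + 1⌉₊)).exists
  exact ⟨k, (Nat.le_ceil _).trans (by exact_mod_cast hk.2), hk.1⟩

/-- One step of the construction. -/
theorem hump_step (F : ℕ → ℝ → ℝ) (hF : ∀ n, Integrable (F n)) (hFm : ∀ n, Measurable (F n))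
    (δ : ℝ) (hδ : 0 < δ)
    (h : ∀ M : ℝ, 0 ≤ M → ∀ N : ℕ, ∃ n, N ≤ n ∧ δ ≤ ∫ x in {x : ℝ | M < |x|}, |F n x|) (s : St) :
    ∃ s' : St, s.N < s'.N ∧ s.M + 1 ≤ s'.M ∧ (∀ x, |x| ≤ s.M → s'.G x = s.G x) ∧
      3 * δ / 4 ≤ |∫ x in {x : ℝ | |x| ≤ s'.M}, F s'.N x * s'.G x| ∧
      ∫ x in {x : ℝ | s'.M < |x|}, |F s'.N x| ≤ δ / 4 := by
  obtain ⟨n, hn, hnδ⟩ := h s.M s.nonneg (s.N + 1)
  obtain ⟨M', hM', htail⟩ := tail_small (F n) (hF n) (δ / 4) (by positivity) s.M
  set t := ∫ x in {x : ℝ | |x| ≤ s.M}, F n x * s.G x with ht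
  set e : ℝ := sg t with he
  have he1 : e = 1 ∨ e = -1 := by
    rw [he, sg]; split_ifs <;> simp
  set G' : ℝ → ℝ := fun x => if |x| ≤ s.M then s.G x else e * sg (F n x) with hG'
  have hG'm : Measurable G' :=
    Measurable.ite (measurableSet_ball' s.M) s.meas ((sg_meas.comp (hFm n)).const_mul e)
  have hG'b : ∀ x, |G' x| ≤ 1 := by
    intro x
    simp only [hG']
    split_ifs
    · exact s.bd x
    · rw [abs_mul]
      rcases he1 with h1 | h1 <;> rw [h1] <;> simp [abs_sg]
  refine ⟨⟨M', n, G', hG'm, hG'b, by linarith [s.nonneg]⟩, by simp; omega, hM', ?_, ?_, htail⟩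
  · intro x hx
    simp only [hG', if_pos hx]
  · simp only
    have hsplit : {x : ℝ | |x| ≤ M'} = {x : ℝ | |x| ≤ s.M} ∪ ({x : ℝ | s.M < |x|} \ {x | M' < |x|}) := by
      ext x
      simp only [Set.mem_ofPred_eq, Set.mem_union, Set.mem_sdiff, not_lt]
      constructor
      · intro hx
        rcases le_or_gt (|x|) s.M with h1 | h1
        · exact Or.inl h1
        · exact Or.inr ⟨h1, hx⟩
      · rintro (h1 | h1)
        · linarith
        · exact h1.2
    have hdisj : Disjoint {x : ℝ | |x| ≤ s.M} ({x : ℝ | s.M < |x|} \ {x | M' < |x|}) := by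
      rw [Set.disjoint_left]
      intro x hx hx'
      have h1 : s.M < |x| := hx'.1
      have h2 : |x| ≤ s.M := hx
      linarith
    have hint : Integrable (fun x => F n x * G' x) := by
      refine Integrable.mono' (hF n).abs ((hFm n).mul hG'm).aestronglyMeasurable ?_
      refine Filter.Eventually.of_forall fun x => ?_
      rw [Real.norm_eq_abs, abs_mul]
      calc |F n x| * |G' x| ≤ |F n x| * 1 := mul_le_mul_of_nonneg_left (hG'b x) (abs_nonneg _)
        _ = |F n x| := mul_one _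
    have hms : MeasurableSet ({x : ℝ | s.M < |x|} \ {x | M' < |x|}) :=
      (measurableSet_tail' _).diff (measurableSet_tail' _)
    rw [hsplit, setIntegral_union hdisj hms hint.integrableOn hint.integrableOn]
    have h1 : ∫ x in {x : ℝ | |x| ≤ s.M}, F n x * G' x = t := by
      rw [ht]
      refine setIntegral_congr_fun (measurableSet_ball' _) fun x hx => ?_
      simp only [hG', if_pos (show |x| ≤ s.M from hx)]
    have h2 : ∫ x in ({x : ℝ | s.M < |x|} \ {x | M' < |x|}), F n x * G' x =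
        e * ∫ x in ({x : ℝ | s.M < |x|} \ {x | M' < |x|}), |F n x| := by
      rw [← integral_const_mul]
      refine setIntegral_congr_fun hms fun x hx => ?_
      have hx' : ¬ |x| ≤ s.M := not_le.2 hx.1
      simp only [hG', if_neg hx']
      rw [← mul_sg]
      ring
    have h3 : ∫ x in ({x : ℝ | s.M < |x|} \ {x | M' < |x|}), |F n x| =
        (∫ x in {x : ℝ | s.M < |x|}, |F n x|) - ∫ x in {x : ℝ | M' < |x|}, |F n x| := by
      refine setIntegral_sdiff (measurableSet_tail' _) (hF n).abs.integrableOn ?_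
      intro x hx
      have : M' < |x| := hx
      show s.M < |x|
      linarith
    rw [h1, h2, h3]
    set m := (∫ x in {x : ℝ | s.M < |x|}, |F n x|) - ∫ x in {x : ℝ | M' < |x|}, |F n x| with hm
    have hm' : 3 * δ / 4 ≤ m := by rw [hm]; linarith
    have hm0 : 0 ≤ m := by linarith
    have habs : |t + e * m| = |t| + m := by
      rw [he, sg]
      split_ifs with h4
      · rw [one_mul, abs_of_nonneg h4, abs_of_nonneg (by linarith)]
      · rw [abs_of_neg (not_le.1 h4), abs_of_neg (by linarith [not_le.1 h4])]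
        ring
    rw [habs]
    linarith [abs_nonneg t]

/-- Gliding hump: a sequence of integrable functions whose mass outside every bounded set stays
bounded below is not weakly null against bounded functions. -/
theorem gliding (F : ℕ → ℝ → ℝ) (hF : ∀ n, Integrable (F n)) (hFm : ∀ n, Measurable (F n))
    (δ : ℝ) (hδ : 0 < δ)
    (h : ∀ M : ℝ, 0 ≤ M → ∀ N : ℕ, ∃ n, N ≤ n ∧ δ ≤ ∫ x in {x : ℝ | M < |x|}, |F n x|) :
    ∃ g : ℝ → ℝ, Measurable g ∧ (∀ x, |g x| ≤ 1) ∧
      ∀ N : ℕ, ∃ n, N ≤ n ∧ δ / 2 ≤ |∫ x, F n x * g x| := by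
  choose f hf using hump_step F hF hFm δ hδ h
  let s₀ : St := ⟨0, 0, fun _ => 0, measurable_const, by simp, le_rfl⟩
  let S : ℕ → St := fun k => f^[k] s₀
  have hS : ∀ k, S (k + 1) = f (S k) := fun k => Function.iterate_succ_apply' f k s₀
  have hM1 : ∀ k, (S k).M + 1 ≤ (S (k + 1)).M := fun k => by rw [hS]; exact (hf (S k)).2.1
  have hN1 : ∀ k, (S k).N < (S (k + 1)).N := fun k => by rw [hS]; exact (hf (S k)).1
  have hMk : ∀ k : ℕ, (k : ℝ) ≤ (S k).M := by
    intro k
    induction k with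
    | zero => simp [S, s₀]
    | succ k ih => push_cast; linarith [hM1 k]
  have hNk : ∀ k : ℕ, k ≤ (S k).N := by
    intro k
    induction k with
    | zero => simp
    | succ k ih => have := hN1 k; omega
  have hMmono : Monotone fun k => (S k).M := monotone_nat_of_le_succ fun k => by linarith [hM1 k]
  have hG : ∀ j k, j ≤ k → ∀ x, |x| ≤ (S j).M → (S k).G x = (S j).G x := by
    intro j k hjk
    induction k, hjk using Nat.le_induction with
    | base => intro x _; rfl
    | succ k hk ih =>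
      intro x hx
      rw [← ih x hx, hS]
      exact (hf (S k)).2.2.1 x (hx.trans (hMmono hk))
  let g : ℝ → ℝ := fun x => (S ⌈|x|⌉₊).G x
  have hxm : ∀ x : ℝ, |x| ≤ (S ⌈|x|⌉₊).M := fun x => (Nat.le_ceil _).trans (hMk _)
  have hgS : ∀ k x, |x| ≤ (S k).M → g x = (S k).G x := by
    intro k x hx
    rcases le_total ⌈|x|⌉₊ k with h1 | h1
    · exact (hG _ _ h1 x (hxm x)).symm
    · exact hG _ _ h1 x hx
  have hgm : Measurable g := by
    have h1 : Measurable (fun p : ℝ × ℕ => (S p.2).G p.1) :=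
      measurable_from_prod_countable_left fun n => (S n).meas
    exact h1.comp (measurable_id.prodMk (Nat.measurable_ceil.comp measurable_norm))
  have hgb : ∀ x, |g x| ≤ 1 := fun x => (S _).bd x
  refine ⟨g, hgm, hgb, ?_⟩
  intro N
  refine ⟨(S (N + 1)).N, (Nat.le_succ N).trans (hNk _), ?_⟩
  have h3 : 3 * δ / 4 ≤ |∫ x in {x : ℝ | |x| ≤ (S (N + 1)).M}, F (S (N + 1)).N x * (S (N + 1)).G x| := by
    rw [hS]; exact (hf (S N)).2.2.2.1
  have h4 : ∫ x in {x : ℝ | (S (N + 1)).M < |x|}, |F (S (N + 1)).N x| ≤ δ / 4 := by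
    rw [hS]; exact (hf (S N)).2.2.2.2
  set n := (S (N + 1)).N
  set M := (S (N + 1)).M
  have hint : Integrable (fun x => F n x * g x) := by
    refine Integrable.mono' (hF n).abs ((hFm n).mul hgm).aestronglyMeasurable ?_
    refine Filter.Eventually.of_forall fun x => ?_
    rw [Real.norm_eq_abs, abs_mul]
    calc |F n x| * |g x| ≤ |F n x| * 1 := mul_le_mul_of_nonneg_left (hgb x) (abs_nonneg _)
      _ = |F n x| := mul_one _
  have hsplit := integral_add_compl (measurableSet_ball' M) hint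
  have hcompl : {x : ℝ | |x| ≤ M}ᶜ = {x : ℝ | M < |x|} := by
    ext x; simp
  rw [hcompl] at hsplit
  have h5 : ∫ x in {x : ℝ | |x| ≤ M}, F n x * g x = ∫ x in {x : ℝ | |x| ≤ M}, F n x * (S (N + 1)).G x := by
    refine setIntegral_congr_fun (measurableSet_ball' _) fun x hx => ?_
    show F n x * g x = F n x * (S (N + 1)).G x
    rw [hgS (N + 1) x hx]
  have h6 : |∫ x in {x : ℝ | M < |x|}, F n x * g x| ≤ δ / 4 := by
    refine le_trans ?_ h4
    have h7 := norm_integral_le_integral_norm (μ := volume.restrict {x : ℝ | M < |x|})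
      (fun x => F n x * g x)
    refine h7.trans ?_
    refine integral_mono hint.norm.integrableOn (hF n).abs.integrableOn fun x => ?_
    simp only [Real.norm_eq_abs, abs_mul]
    calc |F n x| * |g x| ≤ |F n x| * 1 := mul_le_mul_of_nonneg_left (hgb x) (abs_nonneg _)
      _ = |F n x| := mul_one _
  rw [← hsplit, h5]
  have h8 := abs_sub_abs_le_abs_sub (∫ x in {x : ℝ | |x| ≤ M}, F n x * (S (N + 1)).G x)
    (-∫ x in {x : ℝ | M < |x|}, F n x * g x)
  rw [abs_neg, sub_neg_eq_add] at h8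
  linarith

end Part5

section Part6

/-! Proofs. -/

theorem ratio_lims (α : ℝ) (hα : 0 < α) (u : ℕ → ℝ) (ℓ : ℝ) (hℓ : 0 < ℓ)
    (h : Tendsto (fun n => u n / (n : ℝ) ^ (1 / α)) atTop (𝓝 ℓ)) :
    Tendsto (fun n => u (n + 1) / u n) atTop (𝓝 1) ∧ Tendsto u atTop atTop := by
  have hα' : 0 < 1 / α := by positivity
  have hc : Tendsto (fun n : ℕ => (n : ℝ) ^ (1 / α)) atTop atTop :=
    (tendsto_rpow_atTop hα').comp tendsto_natCast_atTop_atTop
  have hcr : Tendsto (fun n : ℕ => ((n + 1 : ℕ) : ℝ) ^ (1 / α) / (n : ℝ) ^ (1 / α)) atTop (𝓝 1) := by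
    have h1 : Tendsto (fun n : ℕ => ((n : ℝ) + 1) / (n : ℝ)) atTop (𝓝 1) := by
      have := tendsto_one_div_atTop_nhds_zero_nat (𝕜 := ℝ)
      have h2 := this.const_add 1
      rw [add_zero] at h2
      refine h2.congr' ?_
      filter_upwards [eventually_gt_atTop 0] with n hn
      have : (n : ℝ) ≠ 0 := by positivity
      field_simp
    have h2 := h1.rpow_const (p := 1 / α) (Or.inl one_ne_zero)
    rw [Real.one_rpow] at h2
    refine h2.congr' ?_
    filter_upwards with n
    push_cast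
    rw [Real.div_rpow (by positivity) (by positivity)]
  constructor
  · have h1 := ((h.comp (tendsto_add_atTop_nat 1)).div h hℓ.ne').mul hcr
    rw [div_self hℓ.ne', one_mul] at h1
    refine h1.congr' ?_
    filter_upwards [eventually_gt_atTop 0, h.eventually (lt_mem_nhds hℓ)] with n hn hun
    have e1 : (n : ℝ) ^ (1 / α) ≠ 0 := (Real.rpow_pos_of_pos (by positivity) _).ne'
    have e2 : ((n + 1 : ℕ) : ℝ) ^ (1 / α) ≠ 0 := (Real.rpow_pos_of_pos (by positivity) _).ne'
    have e3 : u n ≠ 0 := by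
      intro h0
      rw [h0, zero_div] at hun
      exact lt_irrefl _ hun
    simp only [Function.comp, Pi.div_apply]
    field_simp
  · have h1 := Tendsto.pos_mul_atTop hℓ h hc
    refine h1.congr' ?_
    filter_upwards [eventually_gt_atTop 0] with n hn
    have e1 : (n : ℝ) ^ (1 / α) ≠ 0 := (Real.rpow_pos_of_pos (by positivity) _).ne'
    field_simp

variable {w g : ℝ → ℝ}

theorem abs_en_le (hw : IsWeight w) (hg : Measurable g) (hg1 : ∀ x, |g x| ≤ 1) (n : ℕ) :
    |en w g n| ≤ 1 := by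
  rw [en, abs_div, abs_of_pos (hn_pos hw n), div_le_one (hn_pos hw n)]
  have h1 : |∫ x, (op w n).eval x * (op w n).eval x * w x * g x| ≤
      ∫ x, |(op w n).eval x * (op w n).eval x * w x * g x| := abs_integral_le_integral_abs
  refine h1.trans ?_
  rw [hn, B]
  refine integral_mono (int_op_g hw hg hg1 n).abs (hw.integrable₂ _ _) fun x => ?_
  simp only
  rw [abs_mul, abs_of_nonneg (mul_nonneg (mul_self_nonneg _) (hw.pos x).le)]
  calc (op w n).eval x * (op w n).eval x * w x * |g x| ≤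
        (op w n).eval x * (op w n).eval x * w x * 1 :=
        mul_le_mul_of_nonneg_left (hg1 x) (mul_nonneg (mul_self_nonneg _) (hw.pos x).le)
    _ = _ := mul_one _

theorem int_Fn_mul (hw : IsWeight w) (hg : Measurable g) (hg1 : ∀ x, |g x| ≤ 1) (n : ℕ) :
    ∫ x, Fn w n x * g x = en w g (n + 1) - en w g n := by
  have hs : ∀ m, ∀ x, (pn w m).eval x ^ 2 * w x * g x =
      (1 / hn w m) * ((op w m).eval x * (op w m).eval x * w x * g x) := by
    intro m x
    have h1 := hn_pos hw m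
    rw [pn, eval_mul, eval_C, mul_pow, div_pow, Real.sq_sqrt h1.le]
    ring
  have hi : ∀ m, ∫ x, (pn w m).eval x ^ 2 * w x * g x = en w g m := by
    intro m
    simp only [hs, integral_const_mul]
    rw [en]
    ring
  have hint : ∀ m, Integrable (fun x => (pn w m).eval x ^ 2 * w x * g x) := by
    intro m
    simp only [hs]
    exact (int_op_g hw hg hg1 m).const_mul _
  rw [← hi, ← hi, ← integral_sub (hint _) (hint _)]
  congr 1
  funext x
  rw [Fn]
  ring

/-- The perturbed weight cannot have regular recurrence coefficients as well. -/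
theorem no_limit (α : ℝ) (hw : IsWeight w) (hg : Measurable g)
    (hg1 : ∀ x, |g x| ≤ 1) (ℓ₀ ℓ₁ : ℝ) (hℓ₀ : 0 < ℓ₀) (hℓ₁ : 0 < ℓ₁)
    (h0 : Tendsto (fun n => an w n / (n : ℝ) ^ (1 / α)) atTop (𝓝 ℓ₀))
    (h1 : Tendsto (fun n => an (pw w g (1 / 100)) n / (n : ℝ) ^ (1 / α)) atTop (𝓝 ℓ₁))
    (hosc : ∀ N : ℕ, ∃ n, N ≤ n ∧ (7 / 100 : ℝ) / 2 ≤ |∫ x, Fn w n x * g x|) : False := by
  have hw1 : IsWeight (pw w g (1 / 100)) := isWeight_pw hw hg hg1 (by norm_num) (by norm_num)
  set r : ℕ → ℝ := fun n => hn (pw w g (1 / 100)) n / hn w n with hr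
  have hup : ∀ n, r n ≤ 1 + 1 / 100 * en w g n := by
    intro n
    rw [hr]
    simp only
    rw [div_le_iff₀ (hn_pos hw n), mul_comm]
    exact pert_upper hw hg hg1 (by norm_num) (by norm_num) n
  have hlo : ∀ n, 1 + 1 / 100 * en w g n - (1 / 100) ^ 2 / (1 - 1 / 100) ≤ r n := by
    intro n
    rw [hr]
    simp only
    rw [le_div_iff₀ (hn_pos hw n), mul_comm]
    exact pert_lower hw hg hg1 (by norm_num) (by norm_num) n
  have hr1 : ∀ n, r n ≤ 2 := by
    intro n
    have := (abs_le.1 (abs_en_le hw hg hg1 n)).2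
    linarith [hup n]
  have hr2 : ∀ n, 1 / 2 ≤ r n := by
    intro n
    have := (abs_le.1 (abs_en_le hw hg hg1 n)).1
    have h3 := hlo n
    norm_num at h3
    linarith
  have hratio : Tendsto (fun n => r (n + 1) / r n) atTop (𝓝 ((ℓ₁ / ℓ₀) ^ 2)) := by
    have h3 := ((h1.div h0 hℓ₀.ne').pow 2).comp (tendsto_add_atTop_nat 1)
    refine h3.congr fun n => ?_
    simp only [Function.comp, Pi.div_apply]
    have e1 : ((n + 1 : ℕ) : ℝ) ^ (1 / α) ≠ 0 := (Real.rpow_pos_of_pos (by positivity) _).ne'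
    have e2 := (an_pos hw (n + 1)).ne'
    have e3 : (an (pw w g (1 / 100)) (n + 1) / ((n + 1 : ℕ) : ℝ) ^ (1 / α) /
        (an w (n + 1) / ((n + 1 : ℕ) : ℝ) ^ (1 / α))) ^ 2 =
        an (pw w g (1 / 100)) (n + 1) ^ 2 / an w (n + 1) ^ 2 := by
      field_simp
    rw [e3, an_sq hw1, an_sq hw, hr]
    have f1 := (hn_pos hw n).ne'
    have f2 := (hn_pos hw (n + 1)).ne'
    have f3 := (hn_pos hw1 n).ne'
    have f4 := (hn_pos hw1 (n + 1)).ne'
    field_simp
  have hρ : (ℓ₁ / ℓ₀) ^ 2 = 1 := by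
    have hpos : (0 : ℝ) < (ℓ₁ / ℓ₀) ^ 2 := by positivity
    have hlog : Tendsto (fun n => Real.log (r (n + 1)) - Real.log (r n)) atTop
        (𝓝 (Real.log ((ℓ₁ / ℓ₀) ^ 2))) := by
      have := (Real.continuousAt_log hpos.ne').tendsto.comp hratio
      refine this.congr fun n => ?_
      simp only [Function.comp]
      rw [Real.log_div (by linarith [hr2 (n + 1)]) (by linarith [hr2 n])]
    have hces := hlog.cesaro
    have hzero : Tendsto (fun n : ℕ => (n⁻¹ : ℝ) * ∑ i ∈ Finset.range n,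
        (Real.log (r (i + 1)) - Real.log (r i))) atTop (𝓝 0) := by
      have hb : ∀ n : ℕ, |(n⁻¹ : ℝ) * ∑ i ∈ Finset.range n,
          (Real.log (r (i + 1)) - Real.log (r i))| ≤ (n⁻¹ : ℝ) * 4 := by
        intro n
        rw [Finset.sum_range_sub (fun i => Real.log (r i)), abs_mul,
          abs_of_nonneg (by positivity : (0 : ℝ) ≤ (n⁻¹ : ℝ))]
        refine mul_le_mul_of_nonneg_left ?_ (by positivity)
        have hl : ∀ m, |Real.log (r m)| ≤ 1 := by
          intro m
          have p1 := hr1 m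
          have p2 := hr2 m
          rw [abs_le]
          constructor
          · have : Real.log (1 / 2) ≤ Real.log (r m) := Real.log_le_log (by norm_num) p2
            have h5 : Real.log (1 / 2) = -Real.log 2 := by
              rw [one_div, Real.log_inv]
            have := Real.log_two_lt_d9
            linarith
          · have : Real.log (r m) ≤ Real.log 2 := Real.log_le_log (by linarith) p1
            have := Real.log_two_lt_d9
            linarith
        have a1 := abs_le.1 (hl n)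
        have a2 := abs_le.1 (hl 0)
        rw [abs_le]
        constructor <;> linarith [a1.1, a1.2, a2.1, a2.2]
      have hinv : Tendsto (fun n : ℕ => (n⁻¹ : ℝ) * 4) atTop (𝓝 0) := by
        have := (tendsto_inv_atTop_nhds_zero_nat (𝕜 := ℝ)).mul_const 4
        rwa [zero_mul] at this
      exact squeeze_zero_norm hb hinv
    have huniq := tendsto_nhds_unique hces hzero
    exact Real.eq_one_of_pos_of_log_eq_zero hpos huniq
  rw [hρ] at hratio
  have hdiff : Tendsto (fun n => r (n + 1) - r n) atTop (𝓝 0) := by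
    have h3 : Tendsto (fun n => 2 * |r (n + 1) / r n - 1|) atTop (𝓝 0) := by
      have := ((hratio.sub_const 1).abs).const_mul 2
      simpa using this
    refine squeeze_zero_norm (fun n => ?_) h3
    have p1 := hr1 n
    have p2 := hr2 n
    have h4 : r (n + 1) - r n = r n * (r (n + 1) / r n - 1) := by
      have : r n ≠ 0 := by linarith
      field_simp
    rw [Real.norm_eq_abs, h4, abs_mul, abs_of_pos (by linarith : 0 < r n)]
    exact mul_le_mul_of_nonneg_right p1 (abs_nonneg _)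
  have hsmall : ∀ᶠ n in atTop, |r (n + 1) - r n| < 1 / 10000 := by
    have := hdiff.abs
    rw [abs_zero] at this
    exact this.eventually (gt_mem_nhds (by norm_num))
  obtain ⟨N, hN⟩ := eventually_atTop.1 hsmall
  obtain ⟨n, hn, hosc'⟩ := hosc N
  have h5 := hN n hn
  rw [int_Fn_mul hw hg hg1] at hosc'
  have u1 := hup n
  have u2 := hup (n + 1)
  have l1 := hlo n
  have l2 := hlo (n + 1)
  norm_num at l1 l2
  rw [abs_lt] at h5
  rcases le_abs.1 hosc' with h6 | h6
  · linarith [h5.1, h5.2]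
  · linarith [h5.1, h5.2]

end Part6

section Part7

theorem weight_base_isWeight (α : ℝ) (hα : 0 < α) : IsWeight (weight fun x => |x| ^ α) := by
  have hm : Measurable fun x : ℝ => |x| ^ α :=
    (measurable_norm (α := ℝ)).pow_const α
  refine ⟨?_, fun x => Real.exp_pos _, ?_⟩
  · exact Real.measurable_exp.comp (hm.const_mul (-2))
  · intro k
    have hmeas : Measurable fun x : ℝ => x ^ k * weight (fun x => |x| ^ α) x :=
      (measurable_id.pow_const k).mul (Real.measurable_exp.comp (hm.const_mul (-2)))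
    have h1 : IntegrableOn (fun x : ℝ => x ^ (k : ℝ) * Real.exp (-2 * x ^ α)) (Set.Ioi 0) :=
      integrableOn_rpow_mul_exp_neg_mul_rpow (by
        have : (0 : ℝ) ≤ k := Nat.cast_nonneg k
        linarith) hα two_pos
    have h2 : IntegrableOn (fun x : ℝ => x ^ k * weight (fun x => |x| ^ α) x) (Set.Ioi 0) := by
      refine h1.congr_fun (fun x hx => ?_) measurableSet_Ioi
      have hx' : 0 < x := hx
      simp only [weight]
      rw [Real.rpow_natCast, abs_of_pos hx']
    have h3 : IntegrableOn (fun x : ℝ => x ^ k * weight (fun x => |x| ^ α) x) (Set.Iio 0) := by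
      have h4 := h2.comp_neg
      rw [Set.neg_Ioi, neg_zero] at h4
      refine Integrable.mono h4 hmeas.aestronglyMeasurable ?_
      refine Filter.Eventually.of_forall fun x => ?_
      simp only [weight, abs_neg, norm_mul, norm_pow, norm_neg]
      exact le_rfl
    rw [← integrableOn_univ, ← Set.Iic_union_Ioi (a := (0 : ℝ))]
    have h5 : IntegrableOn (fun x : ℝ => x ^ k * weight (fun x => |x| ^ α) x) (Set.Iic 0) := by
      rw [integrableOn_Iic_iff_integrableOn_Iio]
      exact h3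
    exact h5.union h2

theorem slowlyVarying_one : SlowlyVarying (fun _ => (1 : ℝ)) :=
  ⟨measurable_const, fun _ _ => one_pos, fun _ _ => by simp⟩

theorem deBruijn_one : DeBruijnConjugate (fun _ => (1 : ℝ)) (fun _ => (1 : ℝ)) :=
  ⟨slowlyVarying_one, by simp⟩

/-- Bounded measurable perturbations of `|x|^α` satisfy (H). -/
theorem hypH_of_bounded (α : ℝ) (hα : 0 < α) (φ : ℝ → ℝ) (hφ : ∀ x, |φ x| ≤ 1) :
    HypH (fun x => |x| ^ α + φ x) α 1 1 (fun _ => 1) := by
  have hlim : ∀ ψ : ℝ → ℝ, (∀ x, |ψ x| ≤ 1) →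
      Tendsto (fun x : ℝ => (x ^ α + ψ x) / (1 * x ^ α * 1 ^ α)) atTop (𝓝 1) := by
    intro ψ hψ
    have h1 : Tendsto (fun x : ℝ => ψ x / x ^ α) atTop (𝓝 0) := by
      have h2 : Tendsto (fun x : ℝ => 1 / x ^ α) atTop (𝓝 0) :=
        (tendsto_rpow_atTop hα).const_div_atTop 1
      refine squeeze_zero_norm' ?_ h2
      filter_upwards [eventually_gt_atTop 0] with x hx
      have hx' : 0 < x ^ α := Real.rpow_pos_of_pos hx α
      rw [Real.norm_eq_abs, abs_div, abs_of_pos hx']
      exact div_le_div_of_nonneg_right (hψ x) hx'.le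
    have h3 := h1.const_add 1
    rw [add_zero] at h3
    refine h3.congr' ?_
    filter_upwards [eventually_gt_atTop 0] with x hx
    have hx' : 0 < x ^ α := Real.rpow_pos_of_pos hx α
    rw [Real.one_rpow]
    field_simp
  refine ⟨hα, one_pos, one_pos, by norm_num, slowlyVarying_one, ?_, ?_⟩
  · refine (hlim φ hφ).congr' ?_
    filter_upwards [eventually_gt_atTop 0] with x hx
    rw [abs_of_pos hx]
  · refine (hlim (fun x => φ (-x)) (fun x => hφ _)).congr' ?_
    filter_upwards [eventually_gt_atTop 0] with x hx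
    rw [abs_neg, abs_of_pos hx]

theorem euler_integrand_integrable (α : ℝ) (hα : 0 < α) :
    IntervalIntegrable (fun t : ℝ => t ^ (α - 1) * (1 - t) ^ (-(1 / 2) : ℝ) *
      (1 - (-1) * t) ^ (-(1 / 2) : ℝ)) volume 0 1 := by
  have h1 : IntervalIntegrable (fun t : ℝ => t ^ (α - 1) * (1 - t) ^ (-(1 / 2) : ℝ)) volume 0 1 := by
    have h2 := Complex.betaIntegral_convergent (u := (α : ℂ)) (v := ((1 / 2 : ℝ) : ℂ))
      (by simpa using hα) (by rw [Complex.ofReal_re]; norm_num)
    have h3 := h2.norm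
    rw [intervalIntegrable_iff_integrableOn_Ioo_of_le zero_le_one] at h3 ⊢
    refine h3.congr_fun (fun t ht => ?_) measurableSet_Ioo
    obtain ⟨ht0, ht1⟩ := ht
    have ht1' : 0 < 1 - t := by linarith
    simp only [norm_mul]
    have e1 : ‖(t : ℂ) ^ ((α : ℂ) - 1)‖ = t ^ (α - 1) := by
      rw [Complex.norm_cpow_eq_rpow_re_of_pos ht0]
      simp
    have e2 : ‖(1 - (t : ℂ)) ^ (((1 / 2 : ℝ) : ℂ) - 1)‖ = (1 - t) ^ (-(1 / 2) : ℝ) := by
      have : (1 - (t : ℂ)) = ((1 - t : ℝ) : ℂ) := by push_cast; ring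
      rw [this, Complex.norm_cpow_eq_rpow_re_of_pos ht1']
      congr 1
      rw [Complex.sub_re, Complex.ofReal_re, Complex.one_re]
      norm_num
    rw [e1, e2]
  refine h1.mul_continuousOn ?_
  refine ContinuousOn.rpow_const (by fun_prop) fun t ht => ?_
  left
  rw [Set.uIcc_of_le zero_le_one] at ht
  have := ht.1
  linarith

theorem F21_pos (α : ℝ) (hα : 0 < α) : 0 < F21 α (-1) := by
  rw [F21]
  refine mul_pos (div_pos (Real.Gamma_pos_of_pos (by linarith))
    (mul_pos (Real.Gamma_pos_of_pos hα) (Real.Gamma_pos_of_pos (by norm_num)))) ?_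
  refine intervalIntegral.intervalIntegral_pos_of_pos_on (euler_integrand_integrable α hα) ?_
    zero_lt_one
  intro t ht
  obtain ⟨ht0, ht1⟩ := ht
  have h1 : 0 < 1 - t := by linarith
  have h2 : 0 < 1 - (-1) * t := by linarith
  positivity

theorem isC_one (α : ℝ) (hα : 0 < α) : IsC α 1 1 1 := by
  refine ⟨fun _ => ⟨one_pos, le_rfl, ?_⟩, fun _ => rfl⟩
  have h := (F21_pos α hα).ne'
  rw [Real.one_rpow, one_mul, div_one, div_one, div_self h]

theorem limA_pos (α : ℝ) (hα : 0 < α) : 0 < limA α 1 1 := by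
  have h1 : 0 < Kconst α 1 1 := by
    rw [Kconst]
    have h2 := F21_pos α hα
    have h3 := Real.Gamma_pos_of_pos hα
    have h4 := Real.Gamma_pos_of_pos (by linarith : 0 < α + 1 / 2)
    have h5 := Real.sqrt_pos.2 Real.pi_pos
    have : 0 < √Real.pi / 1 * (Real.Gamma α / Real.Gamma (α + 1 / 2)) := by positivity
    exact mul_pos this h2
  rw [limA]
  have := Real.rpow_pos_of_pos h1 (1 / α)
  positivity

theorem orthonormal_of_isWeight (Q : ℝ → ℝ) (hw : IsWeight (weight Q)) :
    IsOrthonormal Q (pn (weight Q)) ∧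
      IsRecurrence (pn (weight Q)) (an (weight Q)) (bn (weight Q)) := by
  refine ⟨⟨fun n => ⟨pn_natDegree hw n, pn_leadingCoeff hw n⟩, fun m n => pn_orthonormal hw m n⟩,
    fun n => an_pos hw _, X_mul_pn_zero hw, fun n => X_mul_pn hw n⟩

/-- For every `α > 0` some `Q` satisfies (H) with exponent `α`, `A = B = 1`, `L = 1`, but its
recurrence coefficient `a_n / n^{1/α}` has no positive limit at all. -/
theorem exists_bad (α : ℝ) (hα : 0 < α) : ∃ Q : ℝ → ℝ, FiniteMoments Q ∧
    HypH Q α 1 1 (fun _ => 1) ∧ IsWeight (weight Q) ∧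
    ∀ ℓ : ℝ, 0 < ℓ → ¬ Tendsto (fun n => an (weight Q) n / (n : ℝ) ^ (1 / α)) atTop (𝓝 ℓ) := by
  set w₀ := weight (fun x => |x| ^ α) with hw₀
  have hw : IsWeight w₀ := weight_base_isWeight α hα
  have hm₀ : Measurable fun x : ℝ => |x| ^ α := (measurable_norm (α := ℝ)).pow_const α
  by_cases hcase : ∃ ℓ₀ : ℝ, 0 < ℓ₀ ∧ Tendsto (fun n => an w₀ n / (n : ℝ) ^ (1 / α)) atTop (𝓝 ℓ₀)
  · obtain ⟨ℓ₀, hℓ₀, hlim₀⟩ := hcase
    have heven : ∀ x, w₀ (-x) = w₀ x := by
      intro x
      simp only [hw₀, weight, abs_neg]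
    obtain ⟨hr1, hr2⟩ := ratio_lims α hα (an w₀) ℓ₀ hℓ₀ hlim₀
    have hFm : ∀ n, Measurable (Fn w₀ n) := fun n =>
      ((((pn w₀ (n + 1)).continuous.measurable).pow_const 2).sub
        (((pn w₀ n).continuous.measurable).pow_const 2)).mul hw.meas
    obtain ⟨g, hgm, hg1, hosc⟩ := gliding (Fn w₀) (Fn_integrable hw) hFm (7 / 100) (by norm_num)
      (by
        intro M _ N
        obtain ⟨n, hn⟩ := ((D_lower hw heven hr1 hr2 M).and (eventually_ge_atTop N)).exists
        rcases hn.1 with h | h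
        · exact ⟨n + 1, by omega, h⟩
        · exact ⟨n + 2, by omega, h⟩)
    set φ : ℝ → ℝ := fun x => -(1 / 2) * Real.log (1 + 1 / 100 * g x) with hφ
    have hφm : Measurable φ :=
      (Real.measurable_log.comp ((hgm.const_mul (1 / 100)).const_add 1)).const_mul (-(1 / 2))
    have hpos : ∀ x, 0 < 1 + 1 / 100 * g x := by
      intro x
      have := (abs_le.1 (hg1 x)).1
      linarith
    have hφb : ∀ x, |φ x| ≤ 1 := by
      intro x
      have h1 := (abs_le.1 (hg1 x))
      have h2 := hpos x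
      have h3 : Real.log (1 + 1 / 100 * g x) ≤ 1 := by
        have := Real.log_le_sub_one_of_pos h2
        linarith
      have h4 : -1 ≤ Real.log (1 + 1 / 100 * g x) := by
        have h5 : Real.log (1 / 2) ≤ Real.log (1 + 1 / 100 * g x) :=
          Real.log_le_log (by norm_num) (by linarith)
        have h6 : Real.log (1 / 2) = -Real.log 2 := by
          rw [one_div, Real.log_inv]
        have := Real.log_two_lt_d9
        linarith
      simp only [hφ]
      rw [abs_le]
      constructor <;> linarith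
    have hweq : weight (fun x => |x| ^ α + φ x) = pw w₀ g (1 / 100) := by
      funext x
      simp only [weight, pw, hw₀, hφ]
      have : -2 * (|x| ^ α + -(1 / 2) * Real.log (1 + 1 / 100 * g x)) =
          -2 * |x| ^ α + Real.log (1 + 1 / 100 * g x) := by ring
      rw [this, Real.exp_add, Real.exp_log (hpos x)]
    have hw1 : IsWeight (weight (fun x => |x| ^ α + φ x)) := by
      rw [hweq]
      exact isWeight_pw hw hgm hg1 (by norm_num) (by norm_num)
    refine ⟨fun x => |x| ^ α + φ x, ⟨hm₀.add hφm, hw1.mom⟩, hypH_of_bounded α hα φ hφb, hw1, ?_⟩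
    intro ℓ hℓ hlim
    rw [hweq] at hlim
    exact no_limit α hw hgm hg1 ℓ₀ ℓ hℓ₀ hℓ hlim₀ hlim hosc
  · refine ⟨fun x => |x| ^ α, ⟨hm₀, hw.mom⟩, ?_, hw, ?_⟩
    · have := hypH_of_bounded α hα (fun _ => 0) (by simp)
      simpa using this
    · intro ℓ hℓ hlim
      exact hcase ⟨ℓ, hℓ, hlim⟩

/-- Van Assche's conjecture fails for every exponent `α > 0`. -/
theorem result (α : ℝ) (hα : 0 < α) :
    ∃ (Q L Ls : ℝ → ℝ) (A B c : ℝ), FiniteMoments Q ∧ HypH Q α A B L ∧ DeBruijnConjugate L Ls ∧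
      IsC α A B c ∧ ∃ (p : ℕ → ℝ[X]) (a b : ℕ → ℝ), IsOrthonormal Q p ∧ IsRecurrence p a b ∧
        ¬ (Tendsto (fun n => a n / cseq α Ls n) atTop (𝓝 (limA α A c)) ∧
          Tendsto (fun n => b n / cseq α Ls n) atTop (𝓝 (limB α A c))) ∧
        ∀ ℓ : ℝ, 0 < ℓ → ¬ Tendsto (fun n => a n / cseq α Ls n) atTop (𝓝 ℓ) := by
  obtain ⟨Q, hQ, hH, hw, hbad⟩ := exists_bad α hα
  have hbad' : ∀ ℓ : ℝ, 0 < ℓ →
      ¬ Tendsto (fun n => an (weight Q) n / cseq α (fun _ => 1) n) atTop (𝓝 ℓ) := by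
    intro ℓ hℓ h
    apply hbad ℓ hℓ
    simpa only [cseq, mul_one] using h
  obtain ⟨ho, hrec⟩ := orthonormal_of_isWeight Q hw
  exact ⟨Q, fun _ => 1, fun _ => 1, 1, 1, 1, hQ, hH, deBruijn_one, isC_one α hα,
    pn (weight Q), an (weight Q), bn (weight Q), ho, hrec,
    fun h => hbad' _ (limA_pos α hα) h.1, hbad'⟩

end Part7

end Pool.Agent.Results.MP_e8d659_an.NoLimit
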